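import Pool.Agent.H10.Sym4.Power

set_option autoImplicit false

namespace Pool.H10.Sym4

open Finset

/-- The box `{0, …, b - 1} ^ ι` has a colouring with `k` colours without nonconstant
symmetrically coloured progressions of four terms. -/
def NoSym (b : ℕ) (ι : Type) (k : ℕ) : Prop :=
  ∃ c : (ι → Fin b) → Fin k, ∀ (P0 P1 P2 P3 : ι → Fin b) (D : ι → ℤ),
    (∀ i, (((P1 i : Fin b) : ℕ) : ℤ) = ((P0 i : Fin b) : ℕ) + D i) →
    (∀ i, (((P2 i : Fin b) : ℕ) : ℤ) = ((P0 i : Fin b) : ℕ) + 2 * D i) →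
    (∀ i, (((P3 i : Fin b) : ℕ) : ℤ) = ((P0 i : Fin b) : ℕ) + 3 * D i) →
    c P0 = c P3 → c P1 = c P2 → P1 = P2

theorem NoSym.congr {b : ℕ} {ι κ : Type} {k : ℕ} (h : NoSym b ι k) (e : ι ≃ κ) :
    NoSym b κ k := by
  obtain ⟨c, hc⟩ := h
  refine ⟨fun P => c (P ∘ e), ?_⟩
  intro P0 P1 P2 P3 D h1 h2 h3 h4 h5
  have := hc (P0 ∘ e) (P1 ∘ e) (P2 ∘ e) (P3 ∘ e) (D ∘ e) (fun i => h1 (e i)) (fun i => h2 (e i))
    (fun i => h3 (e i)) h4 h5
  funext i
  have h6 := congrFun this (e.symm i)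
  simpa using h6

theorem NoSym.prod {b : ℕ} {ι : Type} {k : ℕ} (h : NoSym b ι k) (m : ℕ) :
    NoSym b (Fin m × ι) (k ^ m) := by
  obtain ⟨c, hc⟩ := h
  refine ⟨fun P => finFunctionFinEquiv (fun a => c (fun i => P (a, i))), ?_⟩
  intro P0 P1 P2 P3 D h1 h2 h3 h4 h5
  have h4 := finFunctionFinEquiv.injective h4
  have h5 := finFunctionFinEquiv.injective h5
  funext ⟨a, i⟩
  have := hc (fun i => P0 (a, i)) (fun i => P1 (a, i)) (fun i => P2 (a, i)) (fun i => P3 (a, i))
    (fun i => D (a, i)) (fun i => h1 (a, i)) (fun i => h2 (a, i)) (fun i => h3 (a, i))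
    (congrFun h4 a) (congrFun h5 a)
  exact congrFun this i

/-- The colouring of a box of large dimension. -/
theorem noSym_box (b n0 s t : ℕ) (hb : 1 ≤ b) (hn0 : 1 ≤ n0) (hs : 1 ≤ s)
    (ht : 32 * (n0 * b ^ 2) ^ 2 * s ^ 3 ≤ t) :
    NoSym b (Fin (n0 * b ^ 2 * t ^ 2) × Fin n0)
      ((n0 * b ^ 2 + 1) ^ (n0 * b ^ 2 * t ^ 2)
        * ((2 ^ (n0 * b ^ 2 * t ^ 2) * (b ^ n0) ^ (n0 * b ^ 2 * t ^ 2 / s) + 1)
          * (b ^ n0) ^ (n0 * b ^ 2 * t ^ 2 / s))) := by
  classical
  have hne : Nonempty (Fin b) := ⟨⟨0, hb⟩⟩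
  let X := Fin n0 → Fin b
  let lv : X → ℕ := fun x => ∑ i, ((x i : ℕ)) ^ 2
  let Q : X → X → X → X → Prop := fun p0 p1 p2 p3 => ∃ D : Fin n0 → ℤ,
    (∀ i, (((p1 i : Fin b) : ℕ) : ℤ) = ((p0 i : Fin b) : ℕ) + D i) ∧
    (∀ i, (((p2 i : Fin b) : ℕ) : ℤ) = ((p0 i : Fin b) : ℕ) + 2 * D i) ∧
    (∀ i, (((p3 i : Fin b) : ℕ) : ℤ) = ((p0 i : Fin b) : ℕ) + 3 * D i)
  have hlv : ∀ x, lv x ≤ n0 * b ^ 2 := by
    intro x
    calc lv x ≤ ∑ _i : Fin n0, b ^ 2 :=
          sum_le_sum (fun i _ => Nat.pow_le_pow_left (x i).2.le 2)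
      _ = n0 * b ^ 2 := by rw [sum_const, card_univ, Fintype.card_fin, smul_eq_mul]
  have hcast : ∀ x : X, ((lv x : ℕ) : ℤ) = ∑ i, (((x i : Fin b) : ℕ) : ℤ) ^ 2 := by
    intro x
    simp only [lv]
    push_cast
    rfl
  have hQ : ∀ p0 p1 p2 p3, Q p0 p1 p2 p3 → lv p0 = lv p3 → lv p1 = lv p2 →
      lv p1 ≤ lv p0 ∧ (p1 ≠ p2 → lv p1 < lv p0) ∧ (lv p1 < lv p0 → p1 ≠ p2 ∧ p0 ≠ p3) := by
    rintro p0 p1 p2 p3 ⟨D, h1, h2, h3⟩ - h12
    have e12 : ((lv p1 : ℕ) : ℤ) = lv p2 := by rw [h12]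
    rw [hcast p1, hcast p2] at e12
    have e0 := hcast p0
    have e1 := hcast p1
    set A : ℤ := ∑ i, (((p0 i : Fin b) : ℕ) : ℤ) ^ 2 with hA
    set B : ℤ := ∑ i, (((p0 i : Fin b) : ℕ) : ℤ) * D i with hB
    set C : ℤ := ∑ i, (D i) ^ 2 with hC
    have s1 : ∑ i, (((p1 i : Fin b) : ℕ) : ℤ) ^ 2 = A + 2 * B + C := by
      rw [hA, hB, hC, mul_sum, ← sum_add_distrib, ← sum_add_distrib]
      apply sum_congr rfl
      intro i _
      rw [h1 i]
      ring
    have s2 : ∑ i, (((p2 i : Fin b) : ℕ) : ℤ) ^ 2 = A + 4 * B + 4 * C := by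
      rw [hA, hB, hC, mul_sum, mul_sum, ← sum_add_distrib, ← sum_add_distrib]
      apply sum_congr rfl
      intro i _
      rw [h2 i]
      ring
    rw [s1, s2] at e12
    rw [s1] at e1
    have hdiff : ((lv p0 : ℕ) : ℤ) - lv p1 = 2 * C := by
      rw [e0, e1]
      linarith
    have hC0 : 0 ≤ C := sum_nonneg (fun i _ => sq_nonneg _)
    refine ⟨by omega, ?_, ?_⟩
    · intro hne
      have hCpos : 0 < C := by
        rcases hC0.lt_or_eq with h | h
        · exact h
        · exfalso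
          apply hne
          have hD := (sum_eq_zero_iff_of_nonneg (fun i _ => sq_nonneg (D i))).mp h.symm
          funext i
          have hDi : D i = 0 := by
            have := hD i (mem_univ i)
            exact pow_eq_zero_iff (two_ne_zero) |>.mp this
          apply Fin.ext
          have a1 := h1 i
          have a2 := h2 i
          rw [hDi] at a1 a2
          omega
      omega
    · intro hlt
      have hCpos : 0 < C := by omega
      obtain ⟨i, hi⟩ : ∃ i, D i ≠ 0 := by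
        by_contra hall
        push Not at hall
        have : C = 0 := by
          rw [hC]
          apply sum_eq_zero
          intro i _
          rw [hall i]
          ring
        omega
      constructor
      · intro heq
        have a1 := h1 i
        have a2 := h2 i
        rw [heq] at a1
        omega
      · intro heq
        have a3 := h3 i
        rw [heq] at a3
        omega
  have hH : 1 ≤ n0 * b ^ 2 := Nat.mul_pos hn0 (by positivity)
  have hpow := power Q lv (n0 * b ^ 2) s t hlv hQ hH hs ht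
  have hcard : Fintype.card X = b ^ n0 := by
    simp only [X, Fintype.card_fun, Fintype.card_fin]
  rw [hcard] at hpow
  obtain ⟨c, hc⟩ := hpow
  refine ⟨fun P => c (fun j i => P (j, i)), ?_⟩
  intro P0 P1 P2 P3 D h1 h2 h3 h4 h5
  have := hc (fun j i => P0 (j, i)) (fun j i => P1 (j, i)) (fun j i => P2 (j, i))
    (fun j i => P3 (j, i))
    (fun j => ⟨fun i => D (j, i), fun i => h1 (j, i), fun i => h2 (j, i), fun i => h3 (j, i)⟩)
    h4 h5
  funext ⟨j, i⟩
  exact congrFun (congrFun this j) i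

/-- digit expansions -/
theorem sum_digits (b x n : ℕ) : x % b ^ n = ∑ i ∈ range n, (x / b ^ i % b) * b ^ i := by
  induction n with
  | zero => simp [Nat.mod_one]
  | succ n ih =>
    rw [sum_range_succ, ← ih, Nat.mod_pow_succ, mul_comm (b ^ n)]

theorem digits_zero (b : ℤ) (n : ℕ) : ∀ e : ℕ → ℤ, (∀ i, |e i| < b) →
    ∑ i ∈ range n, e i * b ^ i = 0 → ∀ i < n, e i = 0 := by
  induction n with
  | zero => intro e _ _ i hi; omega
  | succ n ih =>
    intro e he hsum i hi
    have hb : 0 < b := lt_of_le_of_lt (abs_nonneg _) (he 0)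
    rw [sum_range_succ'] at hsum
    have h1 : ∑ i ∈ range n, e (i + 1) * b ^ (i + 1) = b * ∑ i ∈ range n, e (i + 1) * b ^ i := by
      rw [mul_sum]
      apply sum_congr rfl
      intro i _
      ring
    rw [h1, pow_zero, mul_one] at hsum
    have hdvd : b ∣ e 0 := ⟨-∑ i ∈ range n, e (i + 1) * b ^ i, by linarith⟩
    have h0 : e 0 = 0 := Int.eq_zero_of_abs_lt_dvd hdvd (he 0)
    rw [h0, add_zero] at hsum
    have h2 : ∑ i ∈ range n, e (i + 1) * b ^ i = 0 := by
      rcases mul_eq_zero.mp hsum with h | h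
      · omega
      · exact h
    cases i with
    | zero => exact h0
    | succ i => exact ih (fun i => e (i + 1)) (fun i => he (i + 1)) h2 i (by omega)

/-- From boxes to integers. -/
theorem transfer (b n k : ℕ) (hb : 1 ≤ b) (h : NoSym b (Fin n) k) :
    ∃ c : ℕ → Fin (k * 8 ^ n), ∀ x d : ℕ, 0 < d → x + 3 * d < b ^ n →
      ¬ (c x = c (x + 3 * d) ∧ c (x + d) = c (x + 2 * d)) := by
  classical
  obtain ⟨f, hf⟩ := h
  let dg : ℕ → Fin n → Fin b := fun x i => ⟨x / b ^ (i : ℕ) % b, Nat.mod_lt _ hb⟩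
  let C : ℕ → Fin k × (Fin n → Fin 2 × Fin 4) := fun x =>
    (f (dg x), fun i => (⟨(dg x i : ℕ) % 2, Nat.mod_lt _ (by norm_num)⟩,
      ⟨4 * (dg x i : ℕ) / b, by
        apply Nat.div_lt_of_lt_mul
        have := (dg x i).2
        rw [mul_comm b 4]
        omega⟩))
  have hcard : Fintype.card (Fin k × (Fin n → Fin 2 × Fin 4)) = k * 8 ^ n := by
    rw [Fintype.card_prod, Fintype.card_fun, Fintype.card_prod, Fintype.card_fin,
      Fintype.card_fin, Fintype.card_fin, Fintype.card_fin]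
  let E : Fin k × (Fin n → Fin 2 × Fin 4) ≃ Fin (k * 8 ^ n) := Fintype.equivFinOfCardEq hcard
  refine ⟨fun x => E (C x), ?_⟩
  rintro x d hd hlt ⟨hout, hin⟩
  have hout := E.injective hout
  have hin := E.injective hin
  have o1 : f (dg x) = f (dg (x + 3 * d)) := congrArg Prod.fst hout
  have i1 : f (dg (x + d)) = f (dg (x + 2 * d)) := congrArg Prod.fst hin
  have par : ∀ a c : ℕ, C a = C c → ∀ i, (dg a i : ℕ) % 2 = (dg c i : ℕ) % 2 := by
    intro a c hac i
    have := congrArg (fun z : Fin k × (Fin n → Fin 2 × Fin 4) => (z.2 i).1.val) hac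
    exact this
  have cell : ∀ a c : ℕ, C a = C c → ∀ i, 4 * |((dg a i : ℕ) : ℤ) - (dg c i : ℕ)| < b := by
    intro a c hac i
    have h0 : 4 * (dg a i : ℕ) / b = 4 * (dg c i : ℕ) / b :=
      congrArg (fun z : Fin k × (Fin n → Fin 2 × Fin 4) => (z.2 i).2.val) hac
    have a1 := Nat.div_add_mod (4 * (dg a i : ℕ)) b
    have a2 := Nat.mod_lt (4 * (dg a i : ℕ)) hb
    have b1 := Nat.div_add_mod (4 * (dg c i : ℕ)) b
    have b2 := Nat.mod_lt (4 * (dg c i : ℕ)) hb
    rw [h0] at a1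
    generalize (dg a i : ℕ) = X at *
    generalize (dg c i : ℕ) = Y at *
    generalize b * (4 * Y / b) = Z at *
    rw [← abs_of_pos (show (0 : ℤ) < 4 by norm_num), ← abs_mul, abs_lt]
    constructor <;> omega
  have po := par _ _ hout
  have pi := par _ _ hin
  have co := cell _ _ hout
  have ci := cell _ _ hin
  have hexp : ∀ y : ℕ, y < b ^ n → (y : ℤ) = ∑ i : Fin n, ((dg y i : ℕ) : ℤ) * (b : ℤ) ^ (i : ℕ) := by
    intro y hy
    have h1 := sum_digits b y n
    rw [Nat.mod_eq_of_lt hy] at h1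
    rw [← Fin.sum_univ_eq_sum_range (fun i => y / b ^ i % b * b ^ i)] at h1
    have h2 : (y : ℤ) = ((∑ i : Fin n, y / b ^ (i : ℕ) % b * b ^ (i : ℕ) : ℕ) : ℤ) := by
      rw [← h1]
    rw [h2]
    push_cast
    rfl
  have s0 := hexp x (by omega)
  have s1 := hexp (x + d) (by omega)
  have s2 := hexp (x + 2 * d) (by omega)
  have s3 := hexp (x + 3 * d) hlt
  -- a version of the vanishing lemma for functions on `Fin n`
  have van : ∀ e : Fin n → ℤ, (∀ i, |e i| < b) → ∑ i : Fin n, e i * (b : ℤ) ^ (i : ℕ) = 0 →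
      ∀ i, e i = 0 := by
    intro e he hsum i
    have h1 := digits_zero (b : ℤ) n (fun j => if hj : j < n then e ⟨j, hj⟩ else 0)
      (by
        intro j
        by_cases hj : j < n
        · simp only [hj, dif_pos]
          exact he _
        · simp only [hj, dif_neg, not_false_eq_true, abs_zero]
          exact_mod_cast hb)
      (by
        rw [← Fin.sum_univ_eq_sum_range (fun j => (if hj : j < n then e ⟨j, hj⟩ else 0) * (b : ℤ) ^ j)]
        rw [← hsum]
        apply sum_congr rfl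
        intro j _
        simp)
      i i.2
    simpa using h1
  have sumeq : ∀ i, ((dg x i : ℕ) : ℤ) + (dg (x + 3 * d) i : ℕ)
      = (dg (x + d) i : ℕ) + (dg (x + 2 * d) i : ℕ) := by
    have h1 : ∀ i, ∃ e : ℤ, 2 * e = ((dg x i : ℕ) : ℤ) + (dg (x + 3 * d) i : ℕ)
        - (dg (x + d) i : ℕ) - (dg (x + 2 * d) i : ℕ) ∧ |e| < b := by
      intro i
      have p1 := po i
      have p2 := pi i
      have l0 := (dg x i).2
      have l1 := (dg (x + d) i).2
      have l2 := (dg (x + 2 * d) i).2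
      have l3 := (dg (x + 3 * d) i).2
      refine ⟨(((dg x i : ℕ) : ℤ) + (dg (x + 3 * d) i : ℕ)
        - (dg (x + d) i : ℕ) - (dg (x + 2 * d) i : ℕ)) / 2, ?_, ?_⟩
      · omega
      · rw [abs_lt]
        constructor <;> omega
    choose e he1 he2 using h1
    have h2 : ∑ i : Fin n, e i * (b : ℤ) ^ (i : ℕ) = 0 := by
      have h3 : 2 * ∑ i : Fin n, e i * (b : ℤ) ^ (i : ℕ)
          = (x : ℤ) + (x + 3 * d : ℕ) - (x + d : ℕ) - (x + 2 * d : ℕ) := by
        rw [s0, s1, s2, s3, mul_sum, ← sum_add_distrib, ← sum_sub_distrib, ← sum_sub_distrib]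
        apply sum_congr rfl
        intro i _
        rw [← mul_assoc, he1 i]
        ring
      have h4 : (x : ℤ) + (x + 3 * d : ℕ) - (x + d : ℕ) - (x + 2 * d : ℕ) = 0 := by
        push_cast
        ring
      rw [h4] at h3
      omega
    intro i
    have := van e he2 h2 i
    have h5 := he1 i
    rw [this] at h5
    omega
  have diffeq : ∀ i, ((dg (x + 3 * d) i : ℕ) : ℤ) - (dg x i : ℕ)
      = 3 * (((dg (x + 2 * d) i : ℕ) : ℤ) - (dg (x + d) i : ℕ)) := by
    have h1 := van (fun i => ((dg (x + 3 * d) i : ℕ) : ℤ) - (dg x i : ℕ)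
      - 3 * (((dg (x + 2 * d) i : ℕ) : ℤ) - (dg (x + d) i : ℕ)))
      (by
        intro i
        have c1 := co i
        have c2 := ci i
        rw [abs_sub_comm] at c1 c2
        have t1 := abs_lt.mp (show |((dg (x + 3 * d) i : ℕ) : ℤ) - (dg x i : ℕ)|
          < |((dg (x + 3 * d) i : ℕ) : ℤ) - (dg x i : ℕ)| + 1 by omega)
        have t2 := abs_lt.mp (show |((dg (x + 2 * d) i : ℕ) : ℤ) - (dg (x + d) i : ℕ)|
          < |((dg (x + 2 * d) i : ℕ) : ℤ) - (dg (x + d) i : ℕ)| + 1 by omega)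
        rw [abs_lt]
        constructor <;> omega)
      (by
        have h3 : ∑ i : Fin n, (((dg (x + 3 * d) i : ℕ) : ℤ) - (dg x i : ℕ)
            - 3 * (((dg (x + 2 * d) i : ℕ) : ℤ) - (dg (x + d) i : ℕ))) * (b : ℤ) ^ (i : ℕ)
            = ((x + 3 * d : ℕ) : ℤ) - x - 3 * ((x + 2 * d : ℕ) - (x + d : ℕ)) := by
          rw [s0, s1, s2, s3, mul_sub, mul_sum, mul_sum, ← sum_sub_distrib, ← sum_sub_distrib,
            ← sum_sub_distrib]
          apply sum_congr rfl
          intro i _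
          ring
        rw [h3]
        push_cast
        ring)
    intro i
    have := h1 i
    linarith
  have hres := hf (dg x) (dg (x + d)) (dg (x + 2 * d)) (dg (x + 3 * d))
    (fun i => ((dg (x + 2 * d) i : ℕ) : ℤ) - (dg (x + d) i : ℕ))
    (by
      intro i
      have a1 := sumeq i
      have a2 := diffeq i
      linarith)
    (by
      intro i
      have a1 := sumeq i
      have a2 := diffeq i
      linarith)
    (by
      intro i
      have a1 := sumeq i
      have a2 := diffeq i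
      linarith) o1 i1
  have : ((x + d : ℕ) : ℤ) = ((x + 2 * d : ℕ) : ℤ) := by
    rw [s1, s2, hres]
  omega

end Pool.H10.Sym4
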