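import Mathlib

set_option autoImplicit false

namespace Pool.H10.Sym4

open Finset

/-- The number of functions whose values on `K` lie in `B`. -/
theorem card_restrict {I Y : Type} [Fintype I] [DecidableEq I] [Fintype Y] [DecidableEq Y]
    [Nonempty Y] (K : Finset I) (B : Finset Y) :
    ((univ.filter (fun w : I → Y => ∀ i ∈ K, w i ∈ B)).card : ℝ)
      = (Fintype.card Y : ℝ) ^ Fintype.card I * ((B.card : ℝ) / Fintype.card Y) ^ K.card := by
  classical
  have hY : (Fintype.card Y : ℝ) ≠ 0 := by
    have := Fintype.card_pos (α := Y)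
    positivity
  have h1 : (univ.filter (fun w : I → Y => ∀ i ∈ K, w i ∈ B))
      = Fintype.piFinset (fun i => if i ∈ K then B else univ) := by
    ext w
    simp only [mem_filter, mem_univ, true_and, Fintype.mem_piFinset]
    constructor
    · intro h i
      by_cases hi : i ∈ K
      · simp [hi, h i hi]
      · simp [hi]
    · intro h i hi
      have := h i
      simpa [hi] using this
  rw [h1, Fintype.card_piFinset]
  push_cast
  have h2 : ∀ i : I, (((if i ∈ K then B else (univ : Finset Y)).card : ℕ) : ℝ)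
      = (Fintype.card Y : ℝ) * (if i ∈ K then (B.card : ℝ) / Fintype.card Y else 1) := by
    intro i
    by_cases hi : i ∈ K
    · simp only [hi, if_true]
      field_simp
    · simp [hi]
  rw [Finset.prod_congr rfl (fun i _ => h2 i), Finset.prod_mul_distrib, Finset.prod_const,
    Finset.card_univ]
  congr 1
  rw [Finset.prod_ite_mem, Finset.univ_inter, Finset.prod_const]

/-- The number of `q`-tuples that avoid a set. -/
theorem card_avoid {A : Type} [Fintype A] [DecidableEq A] [Nonempty A] (q : ℕ) (S : Finset A) :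
    ((univ.filter (fun w : Fin q → A => ∀ l, w l ∉ S)).card : ℝ)
      = (Fintype.card A : ℝ) ^ q * (((Fintype.card A : ℝ) - S.card) / Fintype.card A) ^ q := by
  classical
  have h := card_restrict (I := Fin q) (Y := A) univ Sᶜ
  simp only [mem_univ, forall_true_left, mem_compl, Fintype.card_fin, card_univ] at h
  rw [h, card_compl, Nat.cast_sub (card_le_univ S)]

theorem card_avoid_compl {A : Type} [Fintype A] [DecidableEq A] [Nonempty A] (q : ℕ)
    (S : Finset A) :
    ((univ.filter (fun w : Fin q → A => ¬ ∀ l, w l ∉ S)).card : ℝ)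
      = (Fintype.card A : ℝ) ^ q
        * (1 - (((Fintype.card A : ℝ) - S.card) / Fintype.card A) ^ q) := by
  classical
  have h := card_avoid q S
  have h2 := Finset.card_filter_add_card_filter_not (s := (univ : Finset (Fin q → A)))
    (fun w : Fin q → A => ∀ l, w l ∉ S)
  have h3 : (((univ : Finset (Fin q → A)).card : ℕ) : ℝ) = (Fintype.card A : ℝ) ^ q := by
    rw [card_univ, Fintype.card_fun, Fintype.card_fin]
    push_cast
    rfl
  have h4 : (((univ.filter (fun w : Fin q → A => ∀ l, w l ∉ S)).card : ℕ) : ℝ)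
      + ((univ.filter (fun w : Fin q → A => ¬ ∀ l, w l ∉ S)).card : ℕ)
      = (Fintype.card A : ℝ) ^ q := by
    rw [← h3, ← h2]
    push_cast
    rfl
  rw [mul_sub, mul_one]
  linarith

/-- Existence of a family of `q`-tuples, arranged in `M` groups of `g` tuples: every small set is
avoided by a tuple of every group, every large set is avoided by at most `k` tuples. -/
theorem exists_family {A : Type} [Fintype A] [DecidableEq A] [Nonempty A] (q k M g : ℕ)
    (x y : ℝ) (hx0 : 0 < x) (hx1 : x ≤ 1) (hy0 : 0 ≤ y)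
    (h : 2 ^ Fintype.card A * (M : ℝ) * (1 - x ^ q) ^ g
      + 2 ^ Fintype.card A * ((M : ℝ) * g * y ^ q) ^ (k + 1) < 1) :
    ∃ W : Fin M × Fin g → (Fin q → A),
      (∀ S : Finset A, x * Fintype.card A ≤ (Fintype.card A : ℝ) - S.card →
        ∀ r : Fin M, ∃ j : Fin g, ∀ l, W (r, j) l ∉ S) ∧
      (∀ T : Finset A, (Fintype.card A : ℝ) - T.card ≤ y * Fintype.card A →
        (univ.filter (fun i : Fin M × Fin g => ∀ l, W i l ∉ T)).card ≤ k) := by
  classical
  by_contra hcon
  push Not at hcon
  have hA : (0 : ℝ) < Fintype.card A := by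
    have := Fintype.card_pos (α := A)
    positivity
  -- the set of all families
  let Om := Fin M × Fin g → (Fin q → A)
  have hYne : Nonempty (Fin q → A) := inferInstance
  let bad1 : Finset A → Fin M → Finset Om := fun S r =>
    univ.filter (fun W : Om => ∀ i ∈ (univ.filter (fun i : Fin M × Fin g => i.1 = r)),
      W i ∈ univ.filter (fun w : Fin q → A => ¬ ∀ l, w l ∉ S))
  let bad2 : Finset A → Finset (Fin M × Fin g) → Finset Om := fun T K =>
    univ.filter (fun W : Om => ∀ i ∈ K, W i ∈ univ.filter (fun w : Fin q → A => ∀ l, w l ∉ T))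
  let SS : Finset (Finset A) :=
    univ.filter (fun S => x * Fintype.card A ≤ (Fintype.card A : ℝ) - S.card)
  let TT : Finset (Finset A) :=
    univ.filter (fun T => (Fintype.card A : ℝ) - T.card ≤ y * Fintype.card A)
  let KK : Finset (Finset (Fin M × Fin g)) := powersetCard (k + 1) univ
  have hcover : (univ : Finset Om) ⊆
      ((SS ×ˢ (univ : Finset (Fin M))).biUnion (fun p => bad1 p.1 p.2))
        ∪ ((TT ×ˢ KK).biUnion (fun p => bad2 p.1 p.2)) := by
    intro W _
    by_cases hW : ∀ S : Finset A, x * Fintype.card A ≤ (Fintype.card A : ℝ) - S.card →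
        ∀ r : Fin M, ∃ j : Fin g, ∀ l, W (r, j) l ∉ S
    · obtain ⟨T, hT1, hT2⟩ := hcon W hW
      obtain ⟨K, hK1, hK2⟩ := exists_subset_card_eq (Nat.succ_le_of_lt hT2)
      refine mem_union_right _ (mem_biUnion.mpr ⟨(T, K), ?_, ?_⟩)
      · simp only [mem_product, TT, KK, mem_filter, mem_univ, true_and, mem_powersetCard,
          subset_univ]
        exact ⟨hT1, hK2⟩
      · simp only [bad2, mem_filter, mem_univ, true_and]
        intro i hi
        exact (mem_filter.mp (hK1 hi)).2
    · push Not at hW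
      obtain ⟨S, hS, r, hr⟩ := hW
      refine mem_union_left _ (mem_biUnion.mpr ⟨(S, r), ?_, ?_⟩)
      · simp only [mem_product, SS, mem_filter, mem_univ, true_and, and_true]
        exact hS
      · simp only [bad1, mem_filter, mem_univ, true_and]
        rintro ⟨r', j⟩ hi
        simp only at hi
        subst hi
        push Not
        exact hr j
  have hcardOm : (((univ : Finset Om).card : ℕ) : ℝ)
      = ((Fintype.card A : ℝ) ^ q) ^ (Fintype.card (Fin M × Fin g)) := by
    rw [card_univ, Fintype.card_fun, Fintype.card_fun, Fintype.card_fin]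
    push_cast
    rfl
  have hYcard : (Fintype.card (Fin q → A) : ℝ) = (Fintype.card A : ℝ) ^ q := by
    rw [Fintype.card_fun, Fintype.card_fin]
    push_cast
    rfl
  set N : ℝ := ((Fintype.card A : ℝ) ^ q) ^ (Fintype.card (Fin M × Fin g)) with hN
  have hNpos : 0 < N := by positivity
  have hb1 : ∀ S ∈ SS, ∀ r : Fin M, ((bad1 S r).card : ℝ) ≤ N * (1 - x ^ q) ^ g := by
    intro S hS r
    have hS' : x * Fintype.card A ≤ (Fintype.card A : ℝ) - S.card := (mem_filter.mp hS).2
    have h1 := card_restrict (I := Fin M × Fin g) (Y := Fin q → A)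
      (univ.filter (fun i : Fin M × Fin g => i.1 = r))
      (univ.filter (fun w : Fin q → A => ¬ ∀ l, w l ∉ S))
    have h2 : (univ.filter (fun i : Fin M × Fin g => i.1 = r)).card = g := by
      have : (univ.filter (fun i : Fin M × Fin g => i.1 = r))
          = ({r} : Finset (Fin M)) ×ˢ (univ : Finset (Fin g)) := by
        ext ⟨a, b⟩
        simp [eq_comm]
      rw [this, card_product]
      simp
    rw [h2, card_avoid_compl, hYcard] at h1
    change ((bad1 S r).card : ℝ) = _ at h1
    rw [h1]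
    apply mul_le_mul_of_nonneg_left _ hNpos.le
    have hAq : (0 : ℝ) < (Fintype.card A : ℝ) ^ q := by positivity
    rw [mul_div_assoc, mul_comm, div_mul_cancel₀ _ hAq.ne']
    have hle : x ≤ ((Fintype.card A : ℝ) - S.card) / Fintype.card A := by
      rw [le_div_iff₀ hA]
      exact hS'
    have hle1 : ((Fintype.card A : ℝ) - S.card) / Fintype.card A ≤ 1 := by
      rw [div_le_one hA]
      have : (0 : ℝ) ≤ S.card := by positivity
      linarith
    apply pow_le_pow_left₀
    · have := pow_le_one₀ (n := q) (le_trans hx0.le hle) hle1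
      linarith
    · have := pow_le_pow_left₀ hx0.le hle q
      linarith
  have hb2 : ∀ T ∈ TT, ∀ K ∈ KK, ((bad2 T K).card : ℝ) ≤ N * (y ^ q) ^ (k + 1) := by
    intro T hT K hK
    have hT' : (Fintype.card A : ℝ) - T.card ≤ y * Fintype.card A := (mem_filter.mp hT).2
    have hK' : K.card = k + 1 := (mem_powersetCard.mp hK).2
    have h1 := card_restrict (I := Fin M × Fin g) (Y := Fin q → A) K
      (univ.filter (fun w : Fin q → A => ∀ l, w l ∉ T))
    rw [hK', card_avoid, hYcard] at h1
    change ((bad2 T K).card : ℝ) = _ at h1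
    rw [h1]
    apply mul_le_mul_of_nonneg_left _ hNpos.le
    have hAq : (0 : ℝ) < (Fintype.card A : ℝ) ^ q := by positivity
    rw [mul_div_assoc, mul_comm, div_mul_cancel₀ _ hAq.ne']
    have hTle : (T.card : ℝ) ≤ Fintype.card A := by exact_mod_cast card_le_univ T
    have h0 : 0 ≤ ((Fintype.card A : ℝ) - T.card) / Fintype.card A :=
      div_nonneg (by linarith) hA.le
    apply pow_le_pow_left₀ (pow_nonneg h0 _)
    apply pow_le_pow_left₀ h0
    rw [div_le_iff₀ hA]
    exact hT'
  have hSS : ((SS ×ˢ (univ : Finset (Fin M))).card : ℝ) ≤ 2 ^ Fintype.card A * (M : ℝ) := by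
    rw [card_product, card_univ, Fintype.card_fin]
    push_cast
    apply mul_le_mul_of_nonneg_right _ (by positivity)
    have : SS.card ≤ 2 ^ Fintype.card A := by
      calc SS.card ≤ Fintype.card (Finset A) := card_le_univ _
        _ = 2 ^ Fintype.card A := Fintype.card_finset
    exact_mod_cast this
  have hTT : ((TT ×ˢ KK).card : ℝ) ≤ 2 ^ Fintype.card A * ((M : ℝ) * g) ^ (k + 1) := by
    rw [card_product]
    push_cast
    apply mul_le_mul
    · have : TT.card ≤ 2 ^ Fintype.card A := by
        calc TT.card ≤ Fintype.card (Finset A) := card_le_univ _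
          _ = 2 ^ Fintype.card A := Fintype.card_finset
      exact_mod_cast this
    · have : KK.card ≤ (M * g) ^ (k + 1) := by
        rw [card_powersetCard, card_univ, Fintype.card_prod, Fintype.card_fin, Fintype.card_fin]
        exact Nat.choose_le_pow _ _
      exact_mod_cast this
    · positivity
    · positivity
  have hx1q : 0 ≤ (1 - x ^ q) ^ g := by
    apply pow_nonneg
    have := pow_le_one₀ (n := q) hx0.le hx1
    linarith
  have hfin : N ≤ (2 ^ Fintype.card A * (M : ℝ)) * (N * (1 - x ^ q) ^ g)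
      + (2 ^ Fintype.card A * ((M : ℝ) * g) ^ (k + 1)) * (N * (y ^ q) ^ (k + 1)) := by
    have h1 : (((univ : Finset Om).card : ℕ) : ℝ) ≤
        (((SS ×ˢ (univ : Finset (Fin M))).biUnion (fun p => bad1 p.1 p.2)).card : ℝ)
        + (((TT ×ˢ KK).biUnion (fun p => bad2 p.1 p.2)).card : ℝ) := by
      have := (card_le_card hcover).trans (card_union_le _ _)
      exact_mod_cast this
    rw [hcardOm] at h1
    refine h1.trans (add_le_add ?_ ?_)
    · have h2 : (((SS ×ˢ (univ : Finset (Fin M))).biUnion (fun p => bad1 p.1 p.2)).card : ℝ)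
          ≤ ∑ p ∈ SS ×ˢ (univ : Finset (Fin M)), ((bad1 p.1 p.2).card : ℝ) := by
        have := card_biUnion_le (s := SS ×ˢ (univ : Finset (Fin M)))
          (t := fun p => bad1 p.1 p.2)
        exact_mod_cast this
      refine h2.trans ?_
      have h3 : ∑ p ∈ SS ×ˢ (univ : Finset (Fin M)), ((bad1 p.1 p.2).card : ℝ)
          ≤ ∑ _p ∈ SS ×ˢ (univ : Finset (Fin M)), (N * (1 - x ^ q) ^ g) :=
        sum_le_sum (fun p hp => hb1 p.1 (mem_product.mp hp).1 p.2)
      refine h3.trans ?_
      rw [sum_const, nsmul_eq_mul]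
      exact mul_le_mul_of_nonneg_right hSS (mul_nonneg hNpos.le hx1q)
    · have h2 : (((TT ×ˢ KK).biUnion (fun p => bad2 p.1 p.2)).card : ℝ)
          ≤ ∑ p ∈ TT ×ˢ KK, ((bad2 p.1 p.2).card : ℝ) := by
        have := card_biUnion_le (s := TT ×ˢ KK) (t := fun p => bad2 p.1 p.2)
        exact_mod_cast this
      refine h2.trans ?_
      have h3 : ∑ p ∈ TT ×ˢ KK, ((bad2 p.1 p.2).card : ℝ)
          ≤ ∑ _p ∈ TT ×ˢ KK, (N * (y ^ q) ^ (k + 1)) :=
        sum_le_sum (fun p hp => hb2 p.1 (mem_product.mp hp).1 p.2 (mem_product.mp hp).2)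
      refine h3.trans ?_
      rw [sum_const, nsmul_eq_mul]
      exact mul_le_mul_of_nonneg_right hTT (by positivity)
  have hfin2 : N ≤ N * (2 ^ Fintype.card A * (M : ℝ) * (1 - x ^ q) ^ g
      + 2 ^ Fintype.card A * ((M : ℝ) * g * y ^ q) ^ (k + 1)) := by
    calc N ≤ _ := hfin
      _ = _ := by rw [mul_pow _ (y ^ q)]; ring
  have : N * (2 ^ Fintype.card A * (M : ℝ) * (1 - x ^ q) ^ g
      + 2 ^ Fintype.card A * ((M : ℝ) * g * y ^ q) ^ (k + 1)) < N * 1 :=
    mul_lt_mul_of_pos_left h hNpos
  linarith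

/-- Existence of a relation by which small sets are dominated. -/
theorem exists_relation {I I' Sg Sg' : Type} [Fintype I] [DecidableEq I] [Fintype I']
    [DecidableEq I'] [Fintype Sg] [Fintype Sg'] (k M : ℕ)
    (F : Sg → Finset I) (E : Sg → Finset I') (F' : Sg' → Finset I') (E' : Sg' → Finset I)
    (hF : ∀ s, M ≤ (F s).card) (hE : ∀ s, (E s).card ≤ k)
    (hF' : ∀ t, M ≤ (F' t).card) (hE' : ∀ t, (E' t).card ≤ k)
    (h : ((Fintype.card Sg : ℝ) + Fintype.card Sg') * (1 - (1 / 2) ^ k) ^ M < 1) :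
    ∃ R : I → I' → Bool,
      (∀ s, ∃ i ∈ F s, ∀ i' ∈ E s, R i i' = true) ∧
      (∀ t, ∃ i' ∈ F' t, ∀ i ∈ E' t, R i i' = false) := by
  classical
  by_contra hcon
  push Not at hcon
  let N : ℝ := (2 : ℝ) ^ (Fintype.card I' * Fintype.card I)
  have hNpos : 0 < N := by positivity
  -- one side bound
  have key : ∀ (P Q : Type) [Fintype P] [DecidableEq P] [Fintype Q] [DecidableEq Q]
      (f : Finset P) (e : Finset Q) (v : Bool), M ≤ f.card → e.card ≤ k →
      ((univ.filter (fun R : P → Q → Bool => ∀ i ∈ f, ∃ j ∈ e, R i j ≠ v)).card : ℝ)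
        ≤ (2 : ℝ) ^ (Fintype.card Q * Fintype.card P) * (1 - (1 / 2) ^ k) ^ M := by
    intro P Q _ _ _ _ f e v hf he
    have h1 := card_restrict (I := P) (Y := Q → Bool) f
      (univ.filter (fun w : Q → Bool => ∃ j ∈ e, w j ≠ v))
    have h2 := card_restrict (I := Q) (Y := Bool) e {v}
    have h3 := Finset.card_filter_add_card_filter_not (s := (univ : Finset (Q → Bool)))
      (fun w : Q → Bool => ∀ j ∈ e, w j ∈ ({v} : Finset Bool))
    have h4 : (((univ : Finset (Q → Bool)).card : ℕ) : ℝ) = (2 : ℝ) ^ Fintype.card Q := by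
      rw [card_univ, Fintype.card_fun, Fintype.card_bool]
      push_cast
      rfl
    have h5 : (univ.filter (fun w : Q → Bool => ∃ j ∈ e, w j ≠ v))
        = (univ.filter (fun w : Q → Bool => ¬ ∀ j ∈ e, w j ∈ ({v} : Finset Bool))) := by
      ext w
      simp
    have h6 : ((univ.filter (fun w : Q → Bool => ∃ j ∈ e, w j ≠ v)).card : ℝ)
        = (2 : ℝ) ^ Fintype.card Q * (1 - (1 / 2) ^ e.card) := by
      have h7 : ((univ.filter (fun w : Q → Bool => ∀ j ∈ e, w j ∈ ({v} : Finset Bool))).card : ℝ)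
          + ((univ.filter (fun w : Q → Bool => ¬ ∀ j ∈ e, w j ∈ ({v} : Finset Bool))).card : ℝ)
          = (2 : ℝ) ^ Fintype.card Q := by
        rw [← h4, ← h3]
        push_cast
        rfl
      rw [h5]
      rw [h2] at h7
      simp only [Fintype.card_bool, card_singleton, Nat.cast_ofNat, Nat.cast_one] at h7
      linarith
    have h8 : (univ.filter (fun R : P → Q → Bool => ∀ i ∈ f, ∃ j ∈ e, R i j ≠ v))
        = (univ.filter (fun R : P → Q → Bool => ∀ i ∈ f,
            R i ∈ univ.filter (fun w : Q → Bool => ∃ j ∈ e, w j ≠ v))) := by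
      ext R
      simp
    rw [h8, h1, h6, Fintype.card_fun, Fintype.card_bool]
    push_cast
    have h9 : (0 : ℝ) < (2 : ℝ) ^ Fintype.card Q := by positivity
    rw [← pow_mul]
    apply mul_le_mul_of_nonneg_left _ (by positivity)
    rw [mul_div_assoc, mul_comm, div_mul_cancel₀ _ h9.ne']
    have hb0 : (0 : ℝ) ≤ 1 - (1 / 2) ^ e.card := by
      have := pow_le_one₀ (n := e.card) (show (0 : ℝ) ≤ 1 / 2 by norm_num) (by norm_num)
      linarith
    have hb1 : (1 : ℝ) - (1 / 2) ^ e.card ≤ 1 - (1 / 2) ^ k := by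
      have := pow_le_pow_of_le_one (show (0 : ℝ) ≤ 1 / 2 by norm_num) (by norm_num) he
      linarith
    have hb2 : (1 : ℝ) - (1 / 2) ^ e.card ≤ 1 := by
      have : (0 : ℝ) ≤ (1 / 2) ^ e.card := by positivity
      linarith
    calc (1 - (1 / 2 : ℝ) ^ e.card) ^ f.card ≤ (1 - (1 / 2 : ℝ) ^ e.card) ^ M :=
          pow_le_pow_of_le_one hb0 hb2 hf
      _ ≤ _ := pow_le_pow_left₀ hb0 hb1 M
  have hcover : (univ : Finset (I → I' → Bool)) ⊆
      ((univ : Finset Sg).biUnion (fun s =>
        univ.filter (fun R : I → I' → Bool => ∀ i ∈ F s, ∃ j ∈ E s, R i j ≠ true)))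
      ∪ ((univ : Finset Sg').biUnion (fun t =>
        univ.filter (fun R : I → I' → Bool => ∀ j ∈ F' t, ∃ i ∈ E' t, R i j ≠ false))) := by
    intro R _
    by_cases hR : ∀ s, ∃ i ∈ F s, ∀ i' ∈ E s, R i i' = true
    · obtain ⟨t, ht⟩ := hcon R hR
      refine mem_union_right _ (mem_biUnion.mpr ⟨t, mem_univ _, ?_⟩)
      simp only [mem_filter, mem_univ, true_and]
      exact ht
    · push Not at hR
      obtain ⟨s, hs⟩ := hR
      refine mem_union_left _ (mem_biUnion.mpr ⟨s, mem_univ _, ?_⟩)
      simp only [mem_filter, mem_univ, true_and]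
      exact hs
  have hc0 : (((univ : Finset (I → I' → Bool)).card : ℕ) : ℝ) = N := by
    rw [card_univ, Fintype.card_fun, Fintype.card_fun, Fintype.card_bool]
    push_cast
    rw [← pow_mul]
  have hswap : ∀ t, ((univ.filter (fun R : I → I' → Bool =>
      ∀ j ∈ F' t, ∃ i ∈ E' t, R i j ≠ false)).card : ℝ)
      = ((univ.filter (fun R : I' → I → Bool =>
      ∀ j ∈ F' t, ∃ i ∈ E' t, R j i ≠ false)).card : ℝ) := by
    intro t
    congr 1
    apply Finset.card_bij (fun R _ => fun j i => R i j)
    · intro R hR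
      simpa using hR
    · intro R _ R' _ h
      funext i j
      exact congrFun (congrFun h j) i
    · intro R hR
      exact ⟨fun i j => R j i, by simpa using hR, rfl⟩
  have h1 : N ≤ ∑ s : Sg, ((univ.filter (fun R : I → I' → Bool =>
        ∀ i ∈ F s, ∃ j ∈ E s, R i j ≠ true)).card : ℝ)
      + ∑ t : Sg', ((univ.filter (fun R : I → I' → Bool =>
        ∀ j ∈ F' t, ∃ i ∈ E' t, R i j ≠ false)).card : ℝ) := by
    rw [← hc0]
    have := (card_le_card hcover).trans ((card_union_le _ _).trans
      (add_le_add card_biUnion_le card_biUnion_le))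
    exact_mod_cast this
  have h2 : ∑ s : Sg, ((univ.filter (fun R : I → I' → Bool =>
        ∀ i ∈ F s, ∃ j ∈ E s, R i j ≠ true)).card : ℝ)
      ≤ (Fintype.card Sg : ℝ) * (N * (1 - (1 / 2) ^ k) ^ M) := by
    calc _ ≤ ∑ _s : Sg, (N * (1 - (1 / 2) ^ k) ^ M) :=
          sum_le_sum (fun s _ => key I I' (F s) (E s) true (hF s) (hE s))
      _ = _ := by rw [sum_const, nsmul_eq_mul, card_univ]
  have h3 : ∑ t : Sg', ((univ.filter (fun R : I → I' → Bool =>
        ∀ j ∈ F' t, ∃ i ∈ E' t, R i j ≠ false)).card : ℝ)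
      ≤ (Fintype.card Sg' : ℝ) * (N * (1 - (1 / 2) ^ k) ^ M) := by
    calc _ ≤ ∑ _t : Sg', (N * (1 - (1 / 2) ^ k) ^ M) := by
          apply sum_le_sum
          intro t _
          rw [hswap t]
          have := key I' I (F' t) (E' t) false (hF' t) (hE' t)
          rw [mul_comm (Fintype.card I)] at this
          exact this
      _ = _ := by rw [sum_const, nsmul_eq_mul, card_univ]
  have h4 : N * (((Fintype.card Sg : ℝ) + Fintype.card Sg') * (1 - (1 / 2) ^ k) ^ M) < N * 1 :=
    mul_lt_mul_of_pos_left h hNpos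
  linarith

end Pool.H10.Sym4
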