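import Pool.Agent.H10.Sym4.Box

set_option autoImplicit false

/-!
# Colourings of boxes without symmetrically coloured quadruples of any shape
-/

namespace Pool.H10.Sym4

open Finset

/-- A quadruple of integer vectors of shape `(α, β)`: `x0 + x3 = x1 + x2` and
`α (x3 - x0) = β (x2 - x1)`. -/
def Shape (α β : ℕ) {ι : Type} (x0 x1 x2 x3 : ι → ℤ) : Prop :=
  (∀ i, x0 i + x3 i = x1 i + x2 i) ∧ ∀ i, (α : ℤ) * (x3 i - x0 i) = β * (x2 i - x1 i)

/-- the integer vector of a point of the box -/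
def iv {b : ℕ} {ι : Type} (P : ι → Fin b) : ι → ℤ := fun i => (((P i : Fin b) : ℕ) : ℤ)

/-- The box `{0, …, b - 1} ^ ι` has a colouring with `k` colours without nonconstant
symmetrically coloured quadruples of any shape `0 < α < β`. -/
def NoSymG (b : ℕ) (ι : Type) (k : ℕ) : Prop :=
  ∃ c : (ι → Fin b) → Fin k, ∀ (α β : ℕ) (P0 P1 P2 P3 : ι → Fin b), 0 < α → α < β →
    Shape α β (iv P0) (iv P1) (iv P2) (iv P3) → c P0 = c P3 → c P1 = c P2 → P1 = P2

theorem NoSymG.congr {b : ℕ} {ι κ : Type} {k : ℕ} (h : NoSymG b ι k) (e : ι ≃ κ) :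
    NoSymG b κ k := by
  obtain ⟨c, hc⟩ := h
  refine ⟨fun P => c (P ∘ e), ?_⟩
  intro α β P0 P1 P2 P3 hα hβ hS h4 h5
  have := hc α β (P0 ∘ e) (P1 ∘ e) (P2 ∘ e) (P3 ∘ e) hα hβ
    ⟨fun i => hS.1 (e i), fun i => hS.2 (e i)⟩ h4 h5
  funext i
  have h6 := congrFun this (e.symm i)
  simpa using h6

theorem NoSymG.prod {b : ℕ} {ι : Type} {k : ℕ} (h : NoSymG b ι k) (m : ℕ) :
    NoSymG b (Fin m × ι) (k ^ m) := by
  obtain ⟨c, hc⟩ := h
  refine ⟨fun P => finFunctionFinEquiv (fun a => c (fun i => P (a, i))), ?_⟩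
  intro α β P0 P1 P2 P3 hα hβ hS h4 h5
  have h4 := finFunctionFinEquiv.injective h4
  have h5 := finFunctionFinEquiv.injective h5
  funext ⟨a, i⟩
  have := hc α β (fun i => P0 (a, i)) (fun i => P1 (a, i)) (fun i => P2 (a, i))
    (fun i => P3 (a, i)) hα hβ ⟨fun i => hS.1 (a, i), fun i => hS.2 (a, i)⟩
    (congrFun h4 a) (congrFun h5 a)
  exact congrFun this i

/-- Levels of a quadruple of shape `(α, β)`. -/
theorem shape_levels {ι : Type} [Fintype ι] {α β : ℕ}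
    {x0 x1 x2 x3 : ι → ℤ} (hS : Shape α β x0 x1 x2 x3)
    (h03 : ∑ i, x0 i ^ 2 = ∑ i, x3 i ^ 2) (h12 : ∑ i, x1 i ^ 2 = ∑ i, x2 i ^ 2) :
    4 * (α : ℤ) ^ 2 * (∑ i, x0 i ^ 2 - ∑ i, x1 i ^ 2)
      = ((β : ℤ) ^ 2 - (α : ℤ) ^ 2) * ∑ i, (x2 i - x1 i) ^ 2 := by
  have key : ∀ i, 2 * (α : ℤ) ^ 2 * (x0 i ^ 2 + x3 i ^ 2)
      - 2 * (α : ℤ) ^ 2 * (x1 i ^ 2 + x2 i ^ 2)
      = ((β : ℤ) ^ 2 - (α : ℤ) ^ 2) * (x2 i - x1 i) ^ 2 := by
    intro i
    have e1 := hS.1 i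
    have e2 := hS.2 i
    have e3 : 2 * (x0 i ^ 2 + x3 i ^ 2) = (x0 i + x3 i) ^ 2 + (x3 i - x0 i) ^ 2 := by ring
    have e4 : 2 * (x1 i ^ 2 + x2 i ^ 2) = (x1 i + x2 i) ^ 2 + (x2 i - x1 i) ^ 2 := by ring
    have e5 : ((α : ℤ) * (x3 i - x0 i)) ^ 2 = (β * (x2 i - x1 i)) ^ 2 := by rw [e2]
    calc 2 * (α : ℤ) ^ 2 * (x0 i ^ 2 + x3 i ^ 2) - 2 * (α : ℤ) ^ 2 * (x1 i ^ 2 + x2 i ^ 2)
        = (α : ℤ) ^ 2 * (2 * (x0 i ^ 2 + x3 i ^ 2)) - (α : ℤ) ^ 2 * (2 * (x1 i ^ 2 + x2 i ^ 2)) := by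
          ring
      _ = (α : ℤ) ^ 2 * ((x1 i + x2 i) ^ 2 + (x3 i - x0 i) ^ 2)
          - (α : ℤ) ^ 2 * ((x1 i + x2 i) ^ 2 + (x2 i - x1 i) ^ 2) := by rw [e3, e4, e1]
      _ = ((α : ℤ) * (x3 i - x0 i)) ^ 2 - (α : ℤ) ^ 2 * (x2 i - x1 i) ^ 2 := by ring
      _ = _ := by rw [e5]; ring
  have hsum : ∑ i, (2 * (α : ℤ) ^ 2 * (x0 i ^ 2 + x3 i ^ 2)
      - 2 * (α : ℤ) ^ 2 * (x1 i ^ 2 + x2 i ^ 2))
      = ∑ i, ((β : ℤ) ^ 2 - (α : ℤ) ^ 2) * (x2 i - x1 i) ^ 2 := sum_congr rfl fun i _ => key i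
  rw [sum_sub_distrib, ← mul_sum, ← mul_sum, ← mul_sum, sum_add_distrib, sum_add_distrib,
    ← h03, ← h12] at hsum
  linarith

/-- The colouring of a box of large dimension. -/
theorem noSymG_box (b n0 s t : ℕ) (hb : 1 ≤ b) (hn0 : 1 ≤ n0) (hs : 1 ≤ s)
    (ht : 32 * (n0 * b ^ 2) ^ 2 * s ^ 3 ≤ t) :
    NoSymG b (Fin (n0 * b ^ 2 * t ^ 2) × Fin n0)
      ((n0 * b ^ 2 + 1) ^ (n0 * b ^ 2 * t ^ 2)
        * ((2 ^ (n0 * b ^ 2 * t ^ 2) * (b ^ n0) ^ (n0 * b ^ 2 * t ^ 2 / s) + 1)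
          * (b ^ n0) ^ (n0 * b ^ 2 * t ^ 2 / s))) := by
  classical
  have hne : Nonempty (Fin b) := ⟨⟨0, hb⟩⟩
  let X := Fin n0 → Fin b
  let lv : X → ℕ := fun x => ∑ i, ((x i : ℕ)) ^ 2
  let Q : X → X → X → X → Prop := fun p0 p1 p2 p3 => ∃ α β : ℕ, 0 < α ∧ α < β ∧
    Shape α β (iv p0) (iv p1) (iv p2) (iv p3)
  have hlv : ∀ x, lv x ≤ n0 * b ^ 2 := by
    intro x
    calc lv x ≤ ∑ _i : Fin n0, b ^ 2 :=
          sum_le_sum (fun i _ => Nat.pow_le_pow_left (x i).2.le 2)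
      _ = n0 * b ^ 2 := by rw [sum_const, card_univ, Fintype.card_fin, smul_eq_mul]
  have hcast : ∀ x : X, ((lv x : ℕ) : ℤ) = ∑ i, (iv x i) ^ 2 := by
    intro x
    simp only [lv, iv]
    push_cast
    rfl
  have hQ : ∀ p0 p1 p2 p3, Q p0 p1 p2 p3 → lv p0 = lv p3 → lv p1 = lv p2 →
      lv p1 ≤ lv p0 ∧ (p1 ≠ p2 → lv p1 < lv p0) ∧ (lv p1 < lv p0 → p1 ≠ p2 ∧ p0 ≠ p3) := by
    rintro p0 p1 p2 p3 ⟨α, β, hα, hβ, hS⟩ h03 h12
    have e03 : ((lv p0 : ℕ) : ℤ) = lv p3 := by rw [h03]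
    have e12 : ((lv p1 : ℕ) : ℤ) = lv p2 := by rw [h12]
    have hkey := shape_levels hS (by rw [← hcast, ← hcast, e03])
      (by rw [← hcast, ← hcast, e12])
    rw [← hcast, ← hcast] at hkey
    have hα' : (0 : ℤ) < (α : ℤ) := by exact_mod_cast hα
    have hβ' : (α : ℤ) < (β : ℤ) := by exact_mod_cast hβ
    have hβα : (0 : ℤ) < (β : ℤ) ^ 2 - (α : ℤ) ^ 2 := by nlinarith
    have hα4 : (0 : ℤ) < 4 * (α : ℤ) ^ 2 := by positivity
    have hC0 : (0 : ℤ) ≤ ∑ i, (iv p2 i - iv p1 i) ^ 2 := sum_nonneg fun i _ => sq_nonneg _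
    refine ⟨?_, ?_, ?_⟩
    · have h1 : (0 : ℤ) ≤ 4 * (α : ℤ) ^ 2 * (((lv p0 : ℕ) : ℤ) - lv p1) := by
        rw [hkey]; positivity
      have h2 := nonneg_of_mul_nonneg_right h1 hα4
      omega
    · intro hne
      have hCpos : (0 : ℤ) < ∑ i, (iv p2 i - iv p1 i) ^ 2 := by
        rcases hC0.lt_or_eq with h | h
        · exact h
        · exfalso
          apply hne
          have hD := (sum_eq_zero_iff_of_nonneg (fun i _ => sq_nonneg (iv p2 i - iv p1 i))).mp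
            h.symm
          funext i
          have hDi : iv p2 i - iv p1 i = 0 := by
            have := hD i (mem_univ i)
            exact pow_eq_zero_iff (two_ne_zero) |>.mp this
          apply Fin.ext
          simp only [iv] at hDi
          omega
      have h1 : (0 : ℤ) < 4 * (α : ℤ) ^ 2 * (((lv p0 : ℕ) : ℤ) - lv p1) := by
        rw [hkey]; positivity
      have h2 := (mul_pos_iff_of_pos_left hα4).mp h1
      omega
    · intro hlt
      have h1 : (0 : ℤ) < 4 * (α : ℤ) ^ 2 * (((lv p0 : ℕ) : ℤ) - lv p1) := by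
        have : (0 : ℤ) < ((lv p0 : ℕ) : ℤ) - lv p1 := by omega
        positivity
      rw [hkey] at h1
      obtain ⟨i, hi⟩ : ∃ i, iv p2 i - iv p1 i ≠ 0 := by
        by_contra hall
        push Not at hall
        have : ∑ i, (iv p2 i - iv p1 i) ^ 2 = 0 := by
          apply sum_eq_zero
          intro i _
          rw [hall i]
          ring
        rw [this, mul_zero] at h1
        exact lt_irrefl _ h1
      constructor
      · intro heq
        rw [heq, sub_self] at hi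
        exact hi rfl
      · intro heq
        have a3 := hS.2 i
        rw [heq, sub_self, mul_zero] at a3
        rcases mul_eq_zero.mp a3.symm with h | h
        · omega
        · exact hi h
  have hH : 1 ≤ n0 * b ^ 2 := Nat.mul_pos hn0 (by positivity)
  have hpow := power Q lv (n0 * b ^ 2) s t hlv hQ hH hs ht
  have hcard : Fintype.card X = b ^ n0 := by
    simp only [X, Fintype.card_fun, Fintype.card_fin]
  rw [hcard] at hpow
  obtain ⟨c, hc⟩ := hpow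
  refine ⟨fun P => c (fun j i => P (j, i)), ?_⟩
  intro α β P0 P1 P2 P3 hα hβ hS h4 h5
  have := hc (fun j i => P0 (j, i)) (fun j i => P1 (j, i)) (fun j i => P2 (j, i))
    (fun j i => P3 (j, i))
    (fun j => ⟨α, β, hα, hβ, fun i => hS.1 (j, i), fun i => hS.2 (j, i)⟩)
    h4 h5
  funext ⟨j, i⟩
  exact congrFun (congrFun this j) i

/-- From boxes to integers, for all shapes `(α, β)` with `β ≤ M`. -/
theorem transferG (M b n k : ℕ) (hM : 2 ≤ M) (hb : 1 ≤ b) (h : NoSymG b (Fin n) k) :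
    ∃ c : ℕ → Fin (k * (4 * M) ^ n), ∀ α β x0 x1 x2 x3 : ℕ, 0 < α → α < β → β ≤ M →
      x0 < b ^ n → x1 < b ^ n → x2 < b ^ n → x3 < b ^ n → x0 + x3 = x1 + x2 →
      (α : ℤ) * (x3 - x0) = β * (x2 - x1) → c x0 = c x3 → c x1 = c x2 → x1 = x2 := by
  classical
  obtain ⟨f, hf⟩ := h
  let dg : ℕ → Fin n → Fin b := fun x i => ⟨x / b ^ (i : ℕ) % b, Nat.mod_lt _ hb⟩
  let C : ℕ → Fin k × (Fin n → Fin 2 × Fin (2 * M)) := fun x =>
    (f (dg x), fun i => (⟨(dg x i : ℕ) % 2, Nat.mod_lt _ (by norm_num)⟩,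
      ⟨2 * M * (dg x i : ℕ) / b, by
        apply Nat.div_lt_of_lt_mul
        have h1 := (dg x i).2
        rw [mul_comm b (2 * M)]
        exact Nat.mul_lt_mul_of_pos_left h1 (by omega)⟩))
  have hcard : Fintype.card (Fin k × (Fin n → Fin 2 × Fin (2 * M))) = k * (4 * M) ^ n := by
    rw [Fintype.card_prod, Fintype.card_fun, Fintype.card_prod, Fintype.card_fin,
      Fintype.card_fin, Fintype.card_fin, Fintype.card_fin]
    congr 2
    omega
  let E : Fin k × (Fin n → Fin 2 × Fin (2 * M)) ≃ Fin (k * (4 * M) ^ n) :=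
    Fintype.equivFinOfCardEq hcard
  refine ⟨fun x => E (C x), ?_⟩
  intro α β x0 x1 x2 x3 hα hβ hβM l0 l1 l2 l3 hsum hdif hout hin
  have hout := E.injective hout
  have hin := E.injective hin
  have o1 : f (dg x0) = f (dg x3) := congrArg Prod.fst hout
  have i1 : f (dg x1) = f (dg x2) := congrArg Prod.fst hin
  have par : ∀ a c : ℕ, C a = C c → ∀ i, (dg a i : ℕ) % 2 = (dg c i : ℕ) % 2 := by
    intro a c hac i
    exact congrArg (fun z : Fin k × (Fin n → Fin 2 × Fin (2 * M)) => (z.2 i).1.val) hac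
  have cell : ∀ a c : ℕ, C a = C c → ∀ i,
      2 * (M : ℤ) * |((dg a i : ℕ) : ℤ) - (dg c i : ℕ)| < b := by
    intro a c hac i
    have h0 : 2 * M * (dg a i : ℕ) / b = 2 * M * (dg c i : ℕ) / b :=
      congrArg (fun z : Fin k × (Fin n → Fin 2 × Fin (2 * M)) => (z.2 i).2.val) hac
    have a1 := Nat.div_add_mod (2 * M * (dg a i : ℕ)) b
    have a2 := Nat.mod_lt (2 * M * (dg a i : ℕ)) hb
    have b1 := Nat.div_add_mod (2 * M * (dg c i : ℕ)) b
    have b2 := Nat.mod_lt (2 * M * (dg c i : ℕ)) hb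
    rw [h0] at a1
    have hM0 : (0 : ℤ) ≤ 2 * (M : ℤ) := by positivity
    rw [← abs_of_nonneg hM0, ← abs_mul, mul_sub, abs_lt]
    have e1 : 2 * (M : ℤ) * ((dg a i : ℕ) : ℤ) = ((2 * M * (dg a i : ℕ) : ℕ) : ℤ) := by
      push_cast; ring
    have e2 : 2 * (M : ℤ) * ((dg c i : ℕ) : ℤ) = ((2 * M * (dg c i : ℕ) : ℕ) : ℤ) := by
      push_cast; ring
    rw [e1, e2]
    generalize 2 * M * (dg a i : ℕ) = X at *
    generalize 2 * M * (dg c i : ℕ) = Y at *
    generalize b * (Y / b) = Z at *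
    constructor <;> omega
  have po := par _ _ hout
  have pi := par _ _ hin
  have co := cell _ _ hout
  have ci := cell _ _ hin
  have hexp : ∀ y : ℕ, y < b ^ n → (y : ℤ) = ∑ i : Fin n, ((dg y i : ℕ) : ℤ) * (b : ℤ) ^ (i : ℕ) := by
    intro y hy
    have h1 := sum_digits b y n
    rw [Nat.mod_eq_of_lt hy] at h1
    rw [← Fin.sum_univ_eq_sum_range (fun i => y / b ^ i % b * b ^ i)] at h1
    have h2 : (y : ℤ) = ((∑ i : Fin n, y / b ^ (i : ℕ) % b * b ^ (i : ℕ) : ℕ) : ℤ) := by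
      rw [← h1]
    rw [h2]
    push_cast
    rfl
  have s0 := hexp x0 l0
  have s1 := hexp x1 l1
  have s2 := hexp x2 l2
  have s3 := hexp x3 l3
  -- a version of the vanishing lemma for functions on `Fin n`
  have van : ∀ e : Fin n → ℤ, (∀ i, |e i| < b) → ∑ i : Fin n, e i * (b : ℤ) ^ (i : ℕ) = 0 →
      ∀ i, e i = 0 := by
    intro e he hsum i
    have h1 := digits_zero (b : ℤ) n (fun j => if hj : j < n then e ⟨j, hj⟩ else 0)
      (by
        intro j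
        by_cases hj : j < n
        · simp only [hj, dif_pos]
          exact he _
        · simp only [hj, dif_neg, not_false_eq_true, abs_zero]
          exact_mod_cast hb)
      (by
        rw [← Fin.sum_univ_eq_sum_range (fun j => (if hj : j < n then e ⟨j, hj⟩ else 0) * (b : ℤ) ^ j)]
        rw [← hsum]
        apply sum_congr rfl
        intro j _
        simp)
      i i.2
    simpa using h1
  have sumeq : ∀ i, ((dg x0 i : ℕ) : ℤ) + (dg x3 i : ℕ) = (dg x1 i : ℕ) + (dg x2 i : ℕ) := by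
    have h1 : ∀ i, ∃ e : ℤ, 2 * e = ((dg x0 i : ℕ) : ℤ) + (dg x3 i : ℕ)
        - (dg x1 i : ℕ) - (dg x2 i : ℕ) ∧ |e| < b := by
      intro i
      have p1 := po i
      have p2 := pi i
      have m0 := (dg x0 i).2
      have m1 := (dg x1 i).2
      have m2 := (dg x2 i).2
      have m3 := (dg x3 i).2
      refine ⟨(((dg x0 i : ℕ) : ℤ) + (dg x3 i : ℕ) - (dg x1 i : ℕ) - (dg x2 i : ℕ)) / 2, ?_, ?_⟩
      · omega
      · rw [abs_lt]
        constructor <;> omega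
    choose e he1 he2 using h1
    have h2 : ∑ i : Fin n, e i * (b : ℤ) ^ (i : ℕ) = 0 := by
      have h3 : 2 * ∑ i : Fin n, e i * (b : ℤ) ^ (i : ℕ) = (x0 : ℤ) + x3 - x1 - x2 := by
        rw [s0, s1, s2, s3, mul_sum, ← sum_add_distrib, ← sum_sub_distrib, ← sum_sub_distrib]
        apply sum_congr rfl
        intro i _
        rw [← mul_assoc, he1 i]
        ring
      have h4 : (x0 : ℤ) + x3 - x1 - x2 = 0 := by
        have : ((x0 + x3 : ℕ) : ℤ) = ((x1 + x2 : ℕ) : ℤ) := by rw [hsum]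
        push_cast at this
        linarith
      rw [h4] at h3
      omega
    intro i
    have := van e he2 h2 i
    have h5 := he1 i
    rw [this] at h5
    omega
  have diffeq : ∀ i, (α : ℤ) * (((dg x3 i : ℕ) : ℤ) - (dg x0 i : ℕ))
      = β * (((dg x2 i : ℕ) : ℤ) - (dg x1 i : ℕ)) := by
    have h1 := van (fun i => (α : ℤ) * (((dg x3 i : ℕ) : ℤ) - (dg x0 i : ℕ))
      - β * (((dg x2 i : ℕ) : ℤ) - (dg x1 i : ℕ)))
      (by
        intro i
        have c1 := co i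
        have c2 := ci i
        rw [abs_sub_comm] at c1 c2
        have hαM : (α : ℤ) ≤ M := by exact_mod_cast (hβ.le.trans hβM)
        have hβM' : (β : ℤ) ≤ M := by exact_mod_cast hβM
        have hα0 : (0 : ℤ) ≤ α := by positivity
        have hβ0 : (0 : ℤ) ≤ β := by positivity
        calc |(α : ℤ) * (((dg x3 i : ℕ) : ℤ) - (dg x0 i : ℕ))
              - β * (((dg x2 i : ℕ) : ℤ) - (dg x1 i : ℕ))|
            ≤ |(α : ℤ) * (((dg x3 i : ℕ) : ℤ) - (dg x0 i : ℕ))|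
              + |(β : ℤ) * (((dg x2 i : ℕ) : ℤ) - (dg x1 i : ℕ))| := abs_sub _ _
          _ = (α : ℤ) * |((dg x3 i : ℕ) : ℤ) - (dg x0 i : ℕ)|
              + β * |((dg x2 i : ℕ) : ℤ) - (dg x1 i : ℕ)| := by
              rw [abs_mul, abs_mul, abs_of_nonneg hα0, abs_of_nonneg hβ0]
          _ ≤ (M : ℤ) * |((dg x3 i : ℕ) : ℤ) - (dg x0 i : ℕ)|
              + M * |((dg x2 i : ℕ) : ℤ) - (dg x1 i : ℕ)| :=
              add_le_add (mul_le_mul_of_nonneg_right hαM (abs_nonneg _))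
                (mul_le_mul_of_nonneg_right hβM' (abs_nonneg _))
          _ < b := by linarith)
      (by
        have h3 : ∑ i : Fin n, ((α : ℤ) * (((dg x3 i : ℕ) : ℤ) - (dg x0 i : ℕ))
            - β * (((dg x2 i : ℕ) : ℤ) - (dg x1 i : ℕ))) * (b : ℤ) ^ (i : ℕ)
            = (α : ℤ) * (x3 - x0) - β * (x2 - x1) := by
          rw [s0, s1, s2, s3, ← sum_sub_distrib, ← sum_sub_distrib, mul_sum, mul_sum,
            ← sum_sub_distrib]
          apply sum_congr rfl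
          intro i _
          ring
        rw [h3, hdif, sub_self])
    intro i
    have := h1 i
    linarith
  have hres := hf α β (dg x0) (dg x1) (dg x2) (dg x3) hα hβ
    ⟨fun i => sumeq i, fun i => diffeq i⟩ o1 i1
  have : (x1 : ℤ) = (x2 : ℤ) := by
    rw [s1, s2, hres]
  exact_mod_cast this

end Pool.H10.Sym4
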