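import Pool.Agent.H10.Sym4.GBox

set_option autoImplicit false

/-!
# Explicit number of colours, all shapes `(α, β)` with `β ≤ M`
-/

namespace Pool.H10.Sym4

open Finset

private theorem gmain_n0 (L s : ℕ) (hL : 12 ≤ L) (hs : 1 ≤ s) :
    (4 * (4 * s * (L ^ s) ^ 2 + 1)) ^ s ≤ (L ^ s) ^ (4 * s) := by
  have hb : 12 ^ s ≤ L ^ s := Nat.pow_le_pow_left hL s
  have h12 : s < 2 ^ s := Nat.lt_two_pow_self
  have h3 : 2 ^ s ≤ 12 ^ s := Nat.pow_le_pow_left (by norm_num) s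
  have hb12 : 12 ≤ L ^ s := by
    calc 12 = 12 ^ 1 := by norm_num
      _ ≤ 12 ^ s := Nat.pow_le_pow_right (by norm_num) hs
      _ ≤ L ^ s := hb
  have hsb : s ≤ L ^ s := by omega
  generalize L ^ s = b at *
  rw [pow_mul]
  apply Nat.pow_le_pow_left
  -- `16 s b² + 4 ≤ b⁴`
  have e1 : 4 * (4 * s * b ^ 2 + 1) ≤ 4 * (4 * s * b ^ 2 + b ^ 2) := by
    have : 1 ≤ b ^ 2 := Nat.one_le_pow _ _ (by omega)
    omega
  have hsb' : 16 * s + 4 ≤ b ^ 2 := by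
    have h5 : 2 ^ s * 6 ≤ 12 ^ s := by
      have h7 : (12 : ℕ) ^ s = 2 ^ s * 6 ^ s := by
        rw [← mul_pow]
        norm_num
      rw [h7]
      apply Nat.mul_le_mul_left
      calc 6 = 6 ^ 1 := by norm_num
        _ ≤ 6 ^ s := Nat.pow_le_pow_right (by norm_num) hs
    have h6 : 12 ^ s * 12 ≤ b ^ 2 := by
      rw [pow_two]
      exact Nat.mul_le_mul hb hb12
    omega
  calc 4 * (4 * s * b ^ 2 + 1) ≤ 4 * (4 * s * b ^ 2 + b ^ 2) := e1
    _ = (16 * s + 4) * b ^ 2 := by ring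
    _ ≤ b ^ 2 * b ^ 2 := Nat.mul_le_mul_right _ hsb'
    _ = b ^ 4 := by ring

private theorem gmain_size (L s : ℕ) (hL : 12 ≤ L) (hs : 1 ≤ s) :
    4194304 * s ^ 13 * L * L ^ (10 * s) ≤ (L ^ 18) ^ s := by
  obtain ⟨r, rfl⟩ : ∃ r, s = r + 1 := ⟨s - 1, by omega⟩
  have h1 : r + 1 ≤ 2 ^ r := Nat.lt_two_pow_self
  have h2 : 4194304 * (r + 1) ^ 13 ≤ (2 ^ 22) ^ (r + 1) := by
    calc 4194304 * (r + 1) ^ 13 ≤ 2 ^ 22 * (2 ^ r) ^ 13 := by
          have : (r + 1) ^ 13 ≤ (2 ^ r) ^ 13 := Nat.pow_le_pow_left h1 13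
          have h3 : (4194304 : ℕ) = 2 ^ 22 := by norm_num
          rw [h3]
          exact Nat.mul_le_mul_left _ this
      _ = 2 ^ (22 + r * 13) := by rw [← pow_mul, ← pow_add]
      _ ≤ 2 ^ (22 * (r + 1)) := Nat.pow_le_pow_right (by norm_num) (by omega)
      _ = (2 ^ 22) ^ (r + 1) := by rw [pow_mul]
  have h4 : (2 : ℕ) ^ 22 ≤ L ^ 7 := by
    calc (2 : ℕ) ^ 22 ≤ 12 ^ 7 := by norm_num
      _ ≤ L ^ 7 := Nat.pow_le_pow_left hL 7
  have h5 : 4194304 * (r + 1) ^ 13 ≤ (L ^ 7) ^ (r + 1) := h2.trans (Nat.pow_le_pow_left h4 _)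
  have h6 : L ≤ L ^ (r + 1) := Nat.le_self_pow (by omega) L
  calc 4194304 * (r + 1) ^ 13 * L * L ^ (10 * (r + 1))
      ≤ (L ^ 7) ^ (r + 1) * L ^ (r + 1) * L ^ (10 * (r + 1)) :=
        Nat.mul_le_mul_right _ (Nat.mul_le_mul h5 h6)
    _ = (L ^ 18) ^ (r + 1) := by
        rw [← pow_mul, ← pow_mul, ← pow_add, ← pow_add]
        congr 1
        ring

theorem exists_goodG (M s : ℕ) (hM : 3 ≤ M) (hs : 1 ≤ s) :
    ∃ B κ : ℕ, 2 ≤ B ∧ κ ^ s ≤ B ^ 4 ∧ Real.log B ≤ (((4 * M : ℕ) : ℝ) ^ 18) ^ s ∧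
      ∀ m : ℕ, ∃ c : ℕ → Fin (κ ^ m), ∀ α β x0 x1 x2 x3 : ℕ, 0 < α → α < β → β ≤ M →
      x0 < B ^ m → x1 < B ^ m → x2 < B ^ m → x3 < B ^ m → x0 + x3 = x1 + x2 →
      (α : ℤ) * (x3 - x0) = β * (x2 - x1) → c x0 = c x3 → c x1 = c x2 → x1 = x2 := by
  obtain ⟨L, hL⟩ : ∃ L : ℕ, L = 4 * M := ⟨_, rfl⟩
  have hL12 : 12 ≤ L := by omega
  have hbL : L ≤ L ^ s := Nat.le_self_pow (by omega) L
  obtain ⟨b, hb⟩ : ∃ b : ℕ, b = L ^ s := ⟨_, rfl⟩
  have hb2 : 12 ≤ b := by omega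
  obtain ⟨n0, hn0eq⟩ : ∃ n0 : ℕ, n0 = 4 * s := ⟨_, rfl⟩
  have hn0 : 1 ≤ n0 := by omega
  have hn0s : (4 * (n0 * b ^ 2 + 1)) ^ s ≤ b ^ n0 := by
    rw [hn0eq, hb]
    exact gmain_n0 L s hL12 hs
  obtain ⟨t, ht⟩ : ∃ t : ℕ, t = 32 * (n0 * b ^ 2) ^ 2 * s ^ 3 := ⟨_, rfl⟩
  have hbox := noSymG_box b n0 s t (by omega) hn0 hs (by omega)
  obtain ⟨H, hH⟩ : ∃ H : ℕ, H = n0 * b ^ 2 := ⟨_, rfl⟩
  rw [← hH] at hbox hn0s ht
  have hH1 : 1 ≤ H := by
    rw [hH]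
    exact Nat.mul_pos hn0 (by positivity)
  have ht1 : 1 ≤ t := by
    rw [ht]
    exact Nat.succ_le_of_lt (by positivity)
  obtain ⟨J, hJ⟩ : ∃ J : ℕ, J = H * t ^ 2 := ⟨_, rfl⟩
  rw [← hJ] at hbox
  have hJ1 : 1 ≤ J := by
    rw [hJ]
    exact Nat.succ_le_of_lt (by positivity)
  have hJn : J * n0 * (s * L) = 4194304 * s ^ 13 * L * L ^ (10 * s) := by
    rw [hJ, ht, hH, hn0eq, hb]
    ring
  obtain ⟨r, hr⟩ : ∃ r : ℕ, r = J / s := ⟨_, rfl⟩
  rw [← hr] at hbox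
  obtain ⟨K, hK⟩ : ∃ K : ℕ, K = (H + 1) ^ J * ((2 ^ J * (b ^ n0) ^ r + 1) * (b ^ n0) ^ r) :=
    ⟨_, rfl⟩
  rw [← hK] at hbox
  refine ⟨b ^ (J * n0), K * L ^ (J * n0), ?_, ?_, ?_, ?_⟩
  · have h1 : b ≤ b ^ (J * n0) := Nat.le_self_pow (by positivity) b
    omega
  · have hXr : 1 ≤ (b ^ n0) ^ r := Nat.pos_of_ne_zero (by positivity)
    have h1 : 2 ^ J * (b ^ n0) ^ r + 1 ≤ 4 ^ J * (b ^ n0) ^ r := by
      have h2 : 2 ^ J + 1 ≤ 4 ^ J := by
        have h3 : (4 : ℕ) ^ J = 2 ^ J * 2 ^ J := by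
          rw [show (4 : ℕ) = 2 * 2 by norm_num, mul_pow]
        have h4 : 2 ≤ 2 ^ J := by
          calc 2 = 2 ^ 1 := by norm_num
            _ ≤ 2 ^ J := Nat.pow_le_pow_right (by norm_num) hJ1
        rw [h3]
        nlinarith
      nlinarith
    have h2 : K ≤ (4 * (H + 1)) ^ J * (b ^ n0) ^ (2 * r) := by
      calc K ≤ (H + 1) ^ J * ((4 ^ J * (b ^ n0) ^ r) * (b ^ n0) ^ r) := by
            rw [hK]
            exact Nat.mul_le_mul_left _ (Nat.mul_le_mul_right _ h1)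
        _ = (4 * (H + 1)) ^ J * (b ^ n0) ^ (2 * r) := by
            rw [mul_pow 4 (H + 1) J, two_mul, pow_add]
            ring
    have h3 : r * s ≤ J := by
      rw [hr]
      exact Nat.div_mul_le_self J s
    calc (K * L ^ (J * n0)) ^ s = K ^ s * (L ^ s) ^ (J * n0) := by
          rw [mul_pow, ← pow_mul, ← pow_mul, mul_comm s]
      _ ≤ ((4 * (H + 1)) ^ J * (b ^ n0) ^ (2 * r)) ^ s * b ^ (J * n0) := by
          rw [← hb]
          exact Nat.mul_le_mul_right _ (Nat.pow_le_pow_left h2 s)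
      _ = ((4 * (H + 1)) ^ s) ^ J * (b ^ n0) ^ (2 * (r * s)) * b ^ (J * n0) := by
          rw [mul_pow, ← pow_mul, ← pow_mul, ← pow_mul, mul_comm J s]
          ring_nf
      _ ≤ (b ^ n0) ^ J * (b ^ n0) ^ (2 * J) * b ^ (J * n0) := by
          apply Nat.mul_le_mul_right
          apply Nat.mul_le_mul
          · exact Nat.pow_le_pow_left hn0s J
          · apply Nat.pow_le_pow_right (by positivity)
            omega
      _ = (b ^ (J * n0)) ^ 4 := by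
          rw [← pow_mul, ← pow_mul, ← pow_mul, ← pow_add, ← pow_add]
          congr 1
          ring
  · have h1 : ((b ^ (J * n0) : ℕ) : ℝ) = (((L : ℕ) : ℝ) ^ s) ^ (J * n0) := by
      rw [hb]; push_cast; ring
    rw [h1, Real.log_pow, Real.log_pow]
    have h2 : Real.log (L : ℝ) ≤ L := by
      have h3 := Real.log_le_sub_one_of_pos (show (0 : ℝ) < L by positivity)
      linarith
    calc ((J * n0 : ℕ) : ℝ) * ((s : ℝ) * Real.log (L : ℝ))
        ≤ ((J * n0 : ℕ) : ℝ) * ((s : ℝ) * (L : ℝ)) := by gcongr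
      _ = ((J * n0 * (s * L) : ℕ) : ℝ) := by push_cast; ring
      _ ≤ (((L ^ 18) ^ s : ℕ) : ℝ) := by
          rw [hJn]
          exact_mod_cast gmain_size L s hL12 hs
      _ = (((4 * M : ℕ) : ℝ) ^ 18) ^ s := by rw [← hL]; push_cast; ring
  · intro m
    have h1 := (hbox.prod m).congr
      ((Equiv.prodCongr (Equiv.refl _) finProdFinEquiv).trans finProdFinEquiv)
    obtain ⟨c, hc⟩ := transferG M b (m * (J * n0)) (K ^ m) (by omega) (by omega) h1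
    have e1 : (K * L ^ (J * n0)) ^ m = K ^ m * (4 * M) ^ (m * (J * n0)) := by
      rw [mul_pow, ← pow_mul, mul_comm (J * n0) m, hL]
    have e2 : (b ^ (J * n0)) ^ m = b ^ (m * (J * n0)) := by
      rw [← pow_mul, mul_comm (J * n0) m]
    rw [e1, e2]
    exact ⟨c, hc⟩

/-- For all `N ≥ 3` and `M ≥ 3` there is a colouring with at most
`N ^ (288 log (4M) / log log N)` colours. -/
theorem boundG (M N : ℕ) (hM : 3 ≤ M) (hN : 3 ≤ N) :
    ∃ k : ℕ, (k : ℝ) ≤ (N : ℝ) ^ (288 * Real.log ((4 * M : ℕ) : ℝ) / Real.log (Real.log N)) ∧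
      ∃ c : ℕ → Fin k, ∀ α β x0 x1 x2 x3 : ℕ, 0 < α → α < β → β ≤ M →
      x0 ≤ N → x1 ≤ N → x2 ≤ N → x3 ≤ N → x0 + x3 = x1 + x2 →
      (α : ℤ) * (x3 - x0) = β * (x2 - x1) → c x0 = c x3 → c x1 = c x2 → x1 = x2 := by
  have hN1 : (1 : ℝ) ≤ N := by
    have : 1 ≤ N := by omega
    exact_mod_cast this
  have hN3 : (3 : ℝ) ≤ N := by exact_mod_cast hN
  have hlogN : 1 < Real.log N := by
    rw [Real.lt_log_iff_exp_lt (by linarith)]
    have := Real.exp_one_lt_d9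
    linarith
  obtain ⟨lam, hlam⟩ : ∃ lam : ℝ, lam = Real.log (Real.log N) := ⟨_, rfl⟩
  have hlam0 : 0 < lam := by
    rw [hlam]
    exact Real.log_pos hlogN
  have hL12 : (12 : ℝ) ≤ ((4 * M : ℕ) : ℝ) := by
    have : 12 ≤ 4 * M := by omega
    exact_mod_cast this
  obtain ⟨Dp, hDp⟩ : ∃ Dp : ℝ, Dp = 18 * Real.log ((4 * M : ℕ) : ℝ) := ⟨_, rfl⟩
  have hDp0 : 0 < Dp := by
    rw [hDp]
    have := Real.log_pos (show (1 : ℝ) < ((4 * M : ℕ) : ℝ) by linarith)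
    linarith
  have hexp : 288 * Real.log ((4 * M : ℕ) : ℝ) / Real.log (Real.log N) = 16 * Dp / lam := by
    rw [hDp, hlam]
    ring
  rw [hexp]
  rcases lt_or_ge lam Dp with hlt | hge
  · -- trivial colouring
    refine ⟨N + 1, ?_, fun x => ⟨x % (N + 1), Nat.mod_lt _ (by omega)⟩, ?_⟩
    · have h1 : (16 : ℝ) ≤ 16 * Dp / lam := by
        rw [le_div_iff₀ hlam0]
        nlinarith
      have h2 : ((N + 1 : ℕ) : ℝ) ≤ (N : ℝ) ^ 2 := by
        push_cast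
        nlinarith
      calc ((N + 1 : ℕ) : ℝ) ≤ (N : ℝ) ^ 2 := h2
        _ = (N : ℝ) ^ (2 : ℝ) := by
            rw [← Real.rpow_natCast]
            norm_num
        _ ≤ (N : ℝ) ^ (16 * Dp / lam) := Real.rpow_le_rpow_of_exponent_le hN1 (by linarith)
    · intro α β x0 x1 x2 x3 _ _ _ _ h1 h2 _ _ _ _ h12
      have h3 : x1 % (N + 1) = x2 % (N + 1) := congrArg Fin.val h12
      rw [Nat.mod_eq_of_lt (by omega), Nat.mod_eq_of_lt (by omega)] at h3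
      exact h3
  · obtain ⟨s, hs⟩ : ∃ s : ℕ, s = ⌊lam / Dp⌋₊ := ⟨_, rfl⟩
    have hq1 : 1 ≤ lam / Dp := by
      rw [le_div_iff₀ hDp0]
      linarith
    have hs1 : 1 ≤ s := by
      rw [hs]
      exact Nat.le_floor (by simpa using hq1)
    have hs2 : (s : ℝ) ≤ lam / Dp := by
      rw [hs]
      exact Nat.floor_le (by positivity)
    have hs3 : lam / Dp < s + 1 := by
      rw [hs]
      exact Nat.lt_floor_add_one _
    have hs1' : (1 : ℝ) ≤ s := by exact_mod_cast hs1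
    obtain ⟨B, κ, hB, hκ, hlogB, hcol⟩ := exists_goodG M s hM hs1
    have hBN : B ≤ N := by
      have h1 : (((4 * M : ℕ) : ℝ) ^ 18) ^ s ≤ Real.log N := by
        have h2 : (((4 * M : ℕ) : ℝ) ^ 18) ^ s = Real.exp (Dp * s) := by
          have h3 : Dp * s = ((18 * s : ℕ) : ℝ) * Real.log ((4 * M : ℕ) : ℝ) := by
            rw [hDp]; push_cast; ring
          rw [h3, ← Real.log_pow, Real.exp_log (by positivity), ← pow_mul]
        rw [h2, ← Real.exp_log (show 0 < Real.log N by linarith), ← hlam]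
        apply Real.exp_le_exp.2
        rw [le_div_iff₀ hDp0] at hs2
        linarith
      have h4 : Real.log B ≤ Real.log N := hlogB.trans h1
      have hB0 : (0 : ℝ) < B := by
        have : 0 < B := by omega
        exact_mod_cast this
      have h5 := (Real.log_le_log_iff hB0 (by linarith)).1 h4
      exact_mod_cast h5
    obtain ⟨m, hm⟩ : ∃ m : ℕ, m = Nat.log B N + 1 := ⟨_, rfl⟩
    have hlt : N < B ^ m := by
      rw [hm]
      exact Nat.lt_pow_succ_log_self (by omega) N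
    have hle : B ^ m ≤ B * N := by
      rw [hm, pow_succ, mul_comm]
      exact Nat.mul_le_mul_left B (Nat.pow_log_le_self B (by omega))
    obtain ⟨c, hc⟩ := hcol m
    refine ⟨κ ^ m, ?_, c, fun α β x0 x1 x2 x3 hα hβ hβM l0 l1 l2 l3 =>
      hc α β x0 x1 x2 x3 hα hβ hβM (by omega) (by omega) (by omega) (by omega)⟩
    have h1 : (κ ^ m) ^ s ≤ N ^ 8 := by
      calc (κ ^ m) ^ s = (κ ^ s) ^ m := by rw [← pow_mul, ← pow_mul, mul_comm]
        _ ≤ (B ^ 4) ^ m := Nat.pow_le_pow_left hκ m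
        _ = (B ^ m) ^ 4 := by rw [← pow_mul, ← pow_mul, mul_comm]
        _ ≤ (B * N) ^ 4 := Nat.pow_le_pow_left hle 4
        _ ≤ (N * N) ^ 4 := Nat.pow_le_pow_left (Nat.mul_le_mul_right N hBN) 4
        _ = N ^ 8 := by ring
    have hs8 : 8 ≤ 16 * Dp / lam * s := by
      have h2 : lam / Dp ≤ 2 * s := by linarith
      rw [div_le_iff₀ hDp0] at h2
      rw [div_mul_eq_mul_div, le_div_iff₀ hlam0]
      nlinarith
    have h2 : ((κ ^ m : ℕ) : ℝ) ^ s ≤ ((N : ℝ) ^ (16 * Dp / lam)) ^ s := by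
      calc ((κ ^ m : ℕ) : ℝ) ^ s ≤ (N : ℝ) ^ 8 := by exact_mod_cast h1
        _ = (N : ℝ) ^ (8 : ℝ) := by
            rw [← Real.rpow_natCast]
            norm_num
        _ ≤ (N : ℝ) ^ (16 * Dp / lam * s) := Real.rpow_le_rpow_of_exponent_le hN1 hs8
        _ = ((N : ℝ) ^ (16 * Dp / lam)) ^ s := by
            rw [Real.rpow_mul (by linarith), Real.rpow_natCast]
    exact le_of_pow_le_pow_left₀ (by omega) (by positivity) h2

end Pool.H10.Sym4
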