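import Pool.Agent.H10.Sym4.Count

set_option autoImplicit false

namespace Pool.H10.Sym4

open Finset

theorem exp_neg_le_half_pow (n : ℕ) : Real.exp (-(n : ℝ)) ≤ (1 / 2) ^ n := by
  have h1 : Real.exp (-(n : ℝ)) = (Real.exp (-1)) ^ n := by
    rw [← Real.exp_nat_mul]
    congr 1
    ring
  rw [h1]
  apply pow_le_pow_left₀ (Real.exp_pos _).le
  rw [Real.exp_neg, one_div]
  apply inv_anti₀ (by norm_num)
  have := Real.add_one_le_exp (1 : ℝ)
  linarith

theorem one_sub_pow_le (X : ℝ) (hX1 : X ≤ 1) (g : ℕ) (n : ℕ) (h : (n : ℝ) ≤ X * g) :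
    (1 - X) ^ g ≤ (1 / 2) ^ n := by
  have h1 : (1 - X) ^ g ≤ (Real.exp (-X)) ^ g :=
    pow_le_pow_left₀ (by linarith) (Real.one_sub_le_exp_neg X) g
  have h2 : (Real.exp (-X)) ^ g = Real.exp (-(X * g)) := by
    rw [← Real.exp_nat_mul]
    congr 1
    ring
  rw [h2] at h1
  refine h1.trans (le_trans ?_ (exp_neg_le_half_pow n))
  apply Real.exp_le_exp.mpr
  linarith

theorem sq_add_two_le (n : ℕ) : n + 2 ≤ 2 ^ (n + 1) := by
  induction n with
  | zero => norm_num
  | succ n ih =>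
    rw [pow_succ]
    omega

theorem poly_le_eight_pow (k : ℕ) (hk : 4 ≤ k) :
    2 * ((k ^ 2 + 2) * (2 * k ^ 2 + k + 4)) ≤ 8 ^ k := by
  induction k, hk using Nat.le_induction with
  | base => norm_num
  | succ k hk ih =>
    have h1 : (8 : ℕ) ^ (k + 1) = 8 * 8 ^ k := by ring
    have h2 : k ^ 3 ≤ k ^ 4 := Nat.pow_le_pow_right (by omega) (by norm_num)
    have h3 : k ≤ k ^ 2 := by nlinarith
    have h4 : ((k + 1) ^ 2 + 2) * (2 * (k + 1) ^ 2 + (k + 1) + 4)
        ≤ 8 * ((k ^ 2 + 2) * (2 * k ^ 2 + k + 4)) := by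
      ring_nf
      ring_nf at h2 h3
      omega
    rw [h1]
    omega

theorem numeric (G p k : ℕ) (hp1 : 1 ≤ p) (hpG : p ≤ G) (hk : 4 ≤ k) :
    ∃ g : ℕ, 2 ^ (k ^ 2) * ((2 ^ k * (k ^ 2 + 2) : ℕ) : ℝ)
        * (1 - ((p : ℝ) / G) ^ (4 * G * k)) ^ g
      + 2 ^ (k ^ 2) * (((2 ^ k * (k ^ 2 + 2) : ℕ) : ℝ) * g
        * (((p : ℝ) - 1) / G) ^ (4 * G * k)) ^ (k + 1) < 1 := by
  have hp : (1 : ℝ) ≤ p := by exact_mod_cast hp1
  have hG : (p : ℝ) ≤ G := by exact_mod_cast hpG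
  have hG0 : (0 : ℝ) < G := by linarith
  set X : ℝ := ((p : ℝ) / G) ^ (4 * G * k) with hX
  have hX0 : 0 < X := by
    apply pow_pos
    apply div_pos (by linarith) hG0
  have hX1 : X ≤ 1 := by
    apply pow_le_one₀
    · apply div_nonneg (by linarith) hG0.le
    · rw [div_le_one hG0]
      exact hG
  have hkr : (4 : ℝ) ≤ k := by exact_mod_cast hk
  let n : ℕ := k + 2 * k ^ 2 + 3
  let g : ℕ := ⌈(n : ℝ) / X⌉₊
  refine ⟨g, ?_⟩
  have hg1 : (n : ℝ) ≤ X * g := by
    have := Nat.le_ceil ((n : ℝ) / X)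
    rw [div_le_iff₀ hX0] at this
    linarith
  have hg2 : X * g ≤ n + 1 := by
    have := Nat.ceil_lt_add_one (show (0 : ℝ) ≤ (n : ℝ) / X by positivity)
    have h2 : X * g ≤ X * ((n : ℝ) / X + 1) := mul_le_mul_of_nonneg_left this.le hX0.le
    have h3 : X * ((n : ℝ) / X + 1) = n + X := by field_simp
    linarith
  have t1 : (2 : ℝ) ^ (k ^ 2) * ((2 ^ k * (k ^ 2 + 2) : ℕ) : ℝ) * (1 - X) ^ g ≤ 1 / 4 := by
    have h1 := one_sub_pow_le X hX1 g n hg1
    have h2 : ((2 ^ k * (k ^ 2 + 2) : ℕ) : ℝ) ≤ 2 ^ k * 2 ^ (k ^ 2 + 1) := by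
      have := Nat.mul_le_mul_left (2 ^ k) (sq_add_two_le (k ^ 2))
      exact_mod_cast this
    have h4 : (0 : ℝ) ≤ (1 - X) ^ g := pow_nonneg (by linarith) _
    calc (2 : ℝ) ^ (k ^ 2) * ((2 ^ k * (k ^ 2 + 2) : ℕ) : ℝ) * (1 - X) ^ g
        ≤ 2 ^ (k ^ 2) * (2 ^ k * 2 ^ (k ^ 2 + 1)) * (1 / 2) ^ n := by
          apply mul_le_mul _ h1 h4 (by positivity)
          apply mul_le_mul_of_nonneg_left h2 (by positivity)
      _ = 1 / 4 := by
          rw [one_div, inv_pow, ← pow_add, ← pow_add]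
          have hn : n = (k ^ 2 + (k + (k ^ 2 + 1))) + 2 := by
            simp only [n]
            ring
          rw [hn]
          field_simp
          ring
  have hY : (((p : ℝ) - 1) / G) ^ (4 * G * k) = (((p : ℝ) - 1) / p) ^ (4 * G * k) * X := by
    rw [hX, ← mul_pow]
    congr 1
    field_simp
  have hZ : (((p : ℝ) - 1) / p) ^ (4 * G * k) ≤ Real.exp (-(4 * (k : ℝ))) := by
    have h1 : ((p : ℝ) - 1) / p ≤ Real.exp (-(1 / (G : ℝ))) := by
      have h2 : ((p : ℝ) - 1) / p ≤ 1 - 1 / G := by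
        rw [div_le_iff₀ (by linarith)]
        have : (p : ℝ) / G ≤ 1 := by rw [div_le_one hG0]; exact hG
        have h3 : (1 - 1 / (G : ℝ)) * p = p - p / G := by ring
        rw [h3]
        linarith
      exact h2.trans (Real.one_sub_le_exp_neg _)
    have h0 : 0 ≤ ((p : ℝ) - 1) / p := div_nonneg (by linarith) (by linarith)
    calc (((p : ℝ) - 1) / p) ^ (4 * G * k) ≤ (Real.exp (-(1 / (G : ℝ)))) ^ (4 * G * k) :=
          pow_le_pow_left₀ h0 h1 _
      _ = Real.exp (-(4 * (k : ℝ))) := by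
          rw [← Real.exp_nat_mul]
          congr 1
          push_cast
          field_simp
  have hE : Real.exp (-(4 * (k : ℝ))) ≤ (1 / 32) ^ k := by
    have h1 : Real.exp (-(4 * (k : ℝ))) = (Real.exp (-4)) ^ k := by
      rw [← Real.exp_nat_mul]
      congr 1
      ring
    rw [h1]
    apply pow_le_pow_left₀ (Real.exp_pos _).le
    rw [Real.exp_neg, one_div]
    apply inv_anti₀ (by norm_num)
    have h2 := Real.exp_one_gt_d9
    have h3 : Real.exp 4 = (Real.exp 1) ^ 4 := by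
      rw [← Real.exp_nat_mul]
      norm_num
    rw [h3]
    have h4 : (2.7 : ℝ) ≤ Real.exp 1 := by linarith
    calc (32 : ℝ) ≤ 2.7 ^ 4 := by norm_num
      _ ≤ _ := pow_le_pow_left₀ (by norm_num) h4 4
  have hbase : ((2 ^ k * (k ^ 2 + 2) : ℕ) : ℝ) * g * (((p : ℝ) - 1) / G) ^ (4 * G * k)
      ≤ (1 / 2) ^ (k + 1) := by
    rw [hY]
    have h0 : 0 ≤ (((p : ℝ) - 1) / p) ^ (4 * G * k) :=
      pow_nonneg (div_nonneg (by linarith) (by linarith)) _
    have h1 : (((p : ℝ) - 1) / p) ^ (4 * G * k) ≤ (1 / 32) ^ k := hZ.trans hE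
    calc ((2 ^ k * (k ^ 2 + 2) : ℕ) : ℝ) * g * ((((p : ℝ) - 1) / p) ^ (4 * G * k) * X)
        = ((2 ^ k * (k ^ 2 + 2) : ℕ) : ℝ) * (X * g) * (((p : ℝ) - 1) / p) ^ (4 * G * k) := by ring
      _ ≤ ((2 ^ k * (k ^ 2 + 2) : ℕ) : ℝ) * (n + 1) * (1 / 32) ^ k := by
          apply mul_le_mul _ h1 h0 (by positivity)
          exact mul_le_mul_of_nonneg_left hg2 (by positivity)
      _ ≤ (1 / 2) ^ (k + 1) := by
          have h2 : 2 * ((k ^ 2 + 2) * (2 * k ^ 2 + k + 4)) ≤ 8 ^ k := poly_le_eight_pow k hk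
          have h3 : (2 : ℝ) * (((k : ℝ) ^ 2 + 2) * (2 * (k : ℝ) ^ 2 + k + 4)) ≤ 8 ^ k := by
            exact_mod_cast h2
          have h4 : (n : ℝ) + 1 = 2 * (k : ℝ) ^ 2 + k + 4 := by
            simp only [n]
            push_cast
            ring
          rw [h4]
          push_cast
          rw [one_div, one_div, inv_pow, inv_pow]
          rw [show (32 : ℝ) ^ k = 2 ^ k * (8 ^ k * 2 ^ k) by
            rw [← mul_pow, ← mul_pow]; norm_num]
          rw [← div_eq_mul_inv, div_le_iff₀ (by positivity)]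
          rw [pow_succ (2 : ℝ) k]
          have h5 : ((2 : ℝ) ^ k * 2)⁻¹ * (2 ^ k * (8 ^ k * 2 ^ k)) = 8 ^ k * 2 ^ k / 2 := by
            field_simp
          rw [h5]
          have h6 : (0 : ℝ) < 2 ^ k := by positivity
          nlinarith
  have hbase0 : 0 ≤ ((2 ^ k * (k ^ 2 + 2) : ℕ) : ℝ) * g * (((p : ℝ) - 1) / G) ^ (4 * G * k) := by
    apply mul_nonneg (by positivity)
    exact pow_nonneg (div_nonneg (by linarith) hG0.le) _
  have t2 : (2 : ℝ) ^ (k ^ 2) * (((2 ^ k * (k ^ 2 + 2) : ℕ) : ℝ) * g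
      * (((p : ℝ) - 1) / G) ^ (4 * G * k)) ^ (k + 1) ≤ 1 / 2 := by
    calc _ ≤ (2 : ℝ) ^ (k ^ 2) * ((1 / 2) ^ (k + 1)) ^ (k + 1) := by
          apply mul_le_mul_of_nonneg_left _ (by positivity)
          exact pow_le_pow_left₀ hbase0 hbase _
      _ = (1 / 2) ^ (2 * k + 1) := by
          rw [← pow_mul, show (k + 1) * (k + 1) = k ^ 2 + (2 * k + 1) by ring, pow_add,
            ← mul_assoc, ← mul_pow]
          norm_num
      _ ≤ (1 / 2) ^ 1 := by
          apply pow_le_pow_of_le_one (by norm_num) (by norm_num)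
          omega
      _ = 1 / 2 := by norm_num
  linarith

/-- Lists for one threshold. -/
theorem lists_threshold {A : Type} [Fintype A] [DecidableEq A] (k G g0 : ℕ) (hk : 4 ≤ k)
    (hg0 : g0 < G) (hA : Fintype.card A = k ^ 2) :
    ∃ u v : Finset A → Finset A, (∀ S, (u S).card ≤ 4 * G * k) ∧ (∀ T, (v T).card ≤ 4 * G * k) ∧
      ∀ S T : Finset A, S ⊆ T → G * S.card ≤ g0 * k ^ 2 → (g0 + 1) * k ^ 2 ≤ G * T.card →
        ((u S ∪ v T) ∩ (T \ S)).Nonempty := by
  classical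
  have hne : Nonempty A := by
    rw [← Fintype.card_pos_iff, hA]
    positivity
  have hG0 : (0 : ℝ) < G := by
    have : 0 < G := by omega
    exact_mod_cast this
  set M : ℕ := 2 ^ k * (k ^ 2 + 2) with hM
  set q : ℕ := 4 * G * k with hq
  obtain ⟨gU, hU⟩ := numeric G (G - g0) k (by omega) (by omega) hk
  obtain ⟨gV, hV⟩ := numeric G (g0 + 1) k (by omega) (by omega) hk
  have cast1 : ((G - g0 : ℕ) : ℝ) = (G : ℝ) - g0 := by
    rw [Nat.cast_sub (by omega)]
  have hg0r : (g0 : ℝ) + 1 ≤ G := by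
    have : g0 + 1 ≤ G := hg0
    exact_mod_cast this
  have hg0n : (0 : ℝ) ≤ g0 := by positivity
  have hAr : (Fintype.card A : ℝ) = (k : ℝ) ^ 2 := by
    rw [hA]
    push_cast
    rfl
  obtain ⟨U, hU1, hU2⟩ := exists_family (A := A) q k M gU (((G - g0 : ℕ) : ℝ) / G)
    ((((G - g0 : ℕ) : ℝ) - 1) / G)
    (by rw [cast1]; apply div_pos _ hG0; linarith)
    (by rw [cast1, div_le_one hG0]; linarith)
    (by rw [cast1]; apply div_nonneg _ hG0.le; linarith)
    (by rw [hA]; exact hU)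
  obtain ⟨V, hV1, hV2⟩ := exists_family (A := A) q k M gV (((g0 + 1 : ℕ) : ℝ) / G)
    ((((g0 + 1 : ℕ) : ℝ) - 1) / G)
    (by apply div_pos _ hG0; positivity)
    (by rw [div_le_one hG0]; push_cast; linarith)
    (by apply div_nonneg _ hG0.le; push_cast; linarith)
    (by rw [hA]; exact hV)
  -- sets of indices
  let Sg : Type := {S : Finset A // G * S.card ≤ g0 * k ^ 2}
  let Tg : Type := {T : Finset A // (g0 + 1) * k ^ 2 ≤ G * T.card}
  have hmulG : ∀ (z w : ℝ), z ≤ w / G * (k : ℝ) ^ 2 ↔ G * z ≤ w * (k : ℝ) ^ 2 := by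
    intro z w
    rw [div_mul_eq_mul_div, le_div_iff₀ hG0, mul_comm z]
  have hmulG' : ∀ (z w : ℝ), w / G * (k : ℝ) ^ 2 ≤ z ↔ w * (k : ℝ) ^ 2 ≤ G * z := by
    intro z w
    rw [div_mul_eq_mul_div, div_le_iff₀ hG0, mul_comm z]
  have hSsmall : ∀ S : Sg, (G : ℝ) * S.1.card ≤ g0 * (k : ℝ) ^ 2 := by
    intro S
    exact_mod_cast S.2
  have hTlarge : ∀ T : Tg, ((g0 : ℝ) + 1) * (k : ℝ) ^ 2 ≤ G * T.1.card := by
    intro T
    exact_mod_cast T.2
  have hUS : ∀ S : Sg, ∀ r : Fin M, ∃ j : Fin gU, ∀ l, U (r, j) l ∉ S.1 := by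
    intro S
    apply hU1 S.1
    rw [hAr, hmulG', cast1]
    have := hSsmall S
    nlinarith
  have hUT : ∀ T : Tg, (univ.filter (fun i : Fin M × Fin gU => ∀ l, U i l ∉ T.1)).card ≤ k := by
    intro T
    apply hU2 T.1
    rw [hAr, hmulG, cast1]
    have := hTlarge T
    nlinarith
  have hVT : ∀ T : Tg, ∀ r : Fin M, ∃ j : Fin gV, ∀ l, V (r, j) l ∈ T.1 := by
    intro T r
    have h := hV1 (T.1)ᶜ (by
      rw [hAr, hmulG', card_compl, Nat.cast_sub (card_le_univ _), hAr]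
      push_cast
      have := hTlarge T
      nlinarith) r
    obtain ⟨j, hj⟩ := h
    refine ⟨j, fun l => ?_⟩
    have := hj l
    simpa using this
  have hVS : ∀ S : Sg, (univ.filter (fun i : Fin M × Fin gV => ∀ l, V i l ∈ S.1)).card ≤ k := by
    intro S
    have h := hV2 (S.1)ᶜ (by
      rw [hAr, hmulG, card_compl, Nat.cast_sub (card_le_univ _), hAr]
      push_cast
      have := hSsmall S
      nlinarith)
    have he : (univ.filter (fun i : Fin M × Fin gV => ∀ l, V i l ∈ S.1))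
        = (univ.filter (fun i : Fin M × Fin gV => ∀ l, V i l ∉ (S.1)ᶜ)) := by
      ext i
      simp
    rw [he]
    exact h
  have hcardM : ∀ {g : ℕ} (f : Finset (Fin M × Fin g)), (∀ r : Fin M, ∃ j : Fin g, (r, j) ∈ f) →
      M ≤ f.card := by
    intro g f hf
    choose j hj using hf
    have h1 : (univ.image (fun r : Fin M => (r, j r))) ⊆ f := by
      intro x hx
      obtain ⟨r, _, rfl⟩ := mem_image.mp hx
      exact hj r
    have h2 : (univ.image (fun r : Fin M => (r, j r))).card = M := by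
      rw [card_image_of_injective]
      · simp
      · intro a b hab
        exact (Prod.mk.inj hab).1
    calc M = (univ.image (fun r : Fin M => (r, j r))).card := h2.symm
      _ ≤ f.card := card_le_card h1
  obtain ⟨R, hR1, hR2⟩ := exists_relation (I := Fin M × Fin gU) (I' := Fin M × Fin gV)
    (Sg := Sg) (Sg' := Tg) k M
    (fun S => univ.filter (fun i => ∀ l, U i l ∉ S.1))
    (fun S => univ.filter (fun i => ∀ l, V i l ∈ S.1))
    (fun T => univ.filter (fun i => ∀ l, V i l ∈ T.1))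
    (fun T => univ.filter (fun i => ∀ l, U i l ∉ T.1))
    (by
      intro S
      apply hcardM
      intro r
      obtain ⟨j, hj⟩ := hUS S r
      exact ⟨j, by simpa using hj⟩)
    hVS
    (by
      intro T
      apply hcardM
      intro r
      obtain ⟨j, hj⟩ := hVT T r
      exact ⟨j, by simpa using hj⟩)
    hUT
    (by
      have c1 : (Fintype.card Sg : ℝ) ≤ 2 ^ (k ^ 2) := by
        have : Fintype.card Sg ≤ 2 ^ (k ^ 2) := by
          calc Fintype.card Sg ≤ Fintype.card (Finset A) := Fintype.card_subtype_le _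
            _ = 2 ^ (k ^ 2) := by rw [Fintype.card_finset, hA]
        exact_mod_cast this
      have c2 : (Fintype.card Tg : ℝ) ≤ 2 ^ (k ^ 2) := by
        have : Fintype.card Tg ≤ 2 ^ (k ^ 2) := by
          calc Fintype.card Tg ≤ Fintype.card (Finset A) := Fintype.card_subtype_le _
            _ = 2 ^ (k ^ 2) := by rw [Fintype.card_finset, hA]
        exact_mod_cast this
      have c3 : (1 - (1 / 2 : ℝ) ^ k) ^ M ≤ (1 / 2) ^ (k ^ 2 + 2) := by
        apply one_sub_pow_le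
        · exact pow_le_one₀ (by norm_num) (by norm_num)
        · rw [hM]
          push_cast
          rw [← mul_assoc, ← mul_pow]
          norm_num
      have c4 : (0 : ℝ) ≤ (1 - (1 / 2 : ℝ) ^ k) ^ M := by
        apply pow_nonneg
        have := pow_le_one₀ (n := k) (show (0 : ℝ) ≤ 1 / 2 by norm_num) (by norm_num)
        linarith
      calc ((Fintype.card Sg : ℝ) + Fintype.card Tg) * (1 - (1 / 2) ^ k) ^ M
          ≤ (2 ^ (k ^ 2) + 2 ^ (k ^ 2)) * (1 / 2) ^ (k ^ 2 + 2) :=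
            mul_le_mul (add_le_add c1 c2) c3 c4 (by positivity)
        _ = 1 / 2 := by
            rw [pow_add, one_div, inv_pow]
            field_simp
            norm_num
        _ < 1 := by norm_num)
  choose iS hiS1 hiS2 using hR1
  choose iT hiT1 hiT2 using hR2
  refine ⟨fun S => if h : G * S.card ≤ g0 * k ^ 2 then univ.image (U (iS ⟨S, h⟩)) else ∅,
    fun T => if h : (g0 + 1) * k ^ 2 ≤ G * T.card then univ.image (V (iT ⟨T, h⟩)) else ∅,
    ?_, ?_, ?_⟩
  · intro S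
    by_cases h : G * S.card ≤ g0 * k ^ 2
    · simp only [h, dif_pos]
      exact card_image_le.trans (by simp)
    · simp [h]
  · intro T
    by_cases h : (g0 + 1) * k ^ 2 ≤ G * T.card
    · simp only [h, dif_pos]
      exact card_image_le.trans (by simp)
    · simp [h]
  · intro S T hST hS hT
    simp only [hS, hT, dif_pos]
    by_contra hemp
    rw [Finset.not_nonempty_iff_eq_empty] at hemp
    have hdis : ∀ x, (x ∈ univ.image (U (iS ⟨S, hS⟩)) ∨ x ∈ univ.image (V (iT ⟨T, hT⟩))) →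
        x ∈ T → x ∈ S := by
      intro x hx hxT
      by_contra hxS
      have : x ∈ (univ.image (U (iS ⟨S, hS⟩)) ∪ univ.image (V (iT ⟨T, hT⟩))) ∩ (T \ S) :=
        mem_inter.mpr ⟨mem_union.mpr hx, mem_sdiff.mpr ⟨hxT, hxS⟩⟩
      rw [hemp] at this
      simp at this
    have h1 := hiS1 ⟨S, hS⟩
    have h2 := hiT1 ⟨T, hT⟩
    simp only [mem_filter, mem_univ, true_and] at h1 h2
    have h3 : iS ⟨S, hS⟩ ∈ univ.filter (fun i => ∀ l, U i l ∉ T) := by
      simp only [mem_filter, mem_univ, true_and]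
      intro l hl
      exact h1 l (hdis _ (Or.inl (mem_image_of_mem _ (mem_univ l))) hl)
    have h4 : iT ⟨T, hT⟩ ∈ univ.filter (fun i => ∀ l, V i l ∈ S) := by
      simp only [mem_filter, mem_univ, true_and]
      intro l
      exact hdis _ (Or.inr (mem_image_of_mem _ (mem_univ l))) (h2 l)
    have h5 := hiS2 ⟨S, hS⟩ (iT ⟨T, hT⟩) h4
    have h6 := hiT2 ⟨T, hT⟩ (iS ⟨S, hS⟩) h3
    rw [h5] at h6
    exact Bool.noConfusion h6

/-- The lists lemma. -/
theorem lists {A : Type} [Fintype A] [DecidableEq A] (k G : ℕ) (hk : 4 ≤ k)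
    (hA : Fintype.card A = k ^ 2) :
    ∃ u v : Finset A → Finset A, (∀ S, (u S).card ≤ 4 * G ^ 2 * k) ∧
      (∀ T, (v T).card ≤ 4 * G ^ 2 * k) ∧
      ∀ S T : Finset A, S ⊆ T → 2 * k ^ 2 ≤ G * (T \ S).card →
        ((u S ∪ v T) ∩ (T \ S)).Nonempty := by
  classical
  have h : ∀ g0 : Fin G, ∃ u v : Finset A → Finset A, (∀ S, (u S).card ≤ 4 * G * k) ∧
      (∀ T, (v T).card ≤ 4 * G * k) ∧
      ∀ S T : Finset A, S ⊆ T → G * S.card ≤ g0 * k ^ 2 → (g0 + 1) * k ^ 2 ≤ G * T.card →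
        ((u S ∪ v T) ∩ (T \ S)).Nonempty := fun g0 => lists_threshold k G g0 hk g0.2 hA
  choose u v hu hv huv using h
  have hcard : ∀ (w : Fin G → Finset A → Finset A), (∀ g S, (w g S).card ≤ 4 * G * k) →
      ∀ S, ((univ : Finset (Fin G)).biUnion (fun g => w g S)).card ≤ 4 * G ^ 2 * k := by
    intro w hw S
    calc ((univ : Finset (Fin G)).biUnion (fun g => w g S)).card
        ≤ ∑ g : Fin G, (w g S).card := card_biUnion_le
      _ ≤ ∑ _g : Fin G, 4 * G * k := sum_le_sum (fun g _ => hw g S)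
      _ = 4 * G ^ 2 * k := by
          rw [sum_const, card_univ, Fintype.card_fin, smul_eq_mul]
          ring
  refine ⟨fun S => univ.biUnion (fun g => u g S), fun T => univ.biUnion (fun g => v g T),
    hcard u hu, hcard v hv, ?_⟩
  intro S T hST hbig
  have hk2 : 0 < k ^ 2 := by positivity
  have hsd : (T \ S).card = T.card - S.card := card_sdiff_of_subset hST
  have hle : S.card ≤ T.card := card_le_card hST
  have hbig2 : 2 * k ^ 2 + G * S.card ≤ G * T.card := by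
    rw [hsd] at hbig
    have : G * T.card = G * (T.card - S.card) + G * S.card := by
      rw [← mul_add]
      congr 1
      omega
    omega
  have hTle : T.card ≤ k ^ 2 := by
    rw [← hA]
    exact card_le_univ T
  -- the threshold
  obtain ⟨g0, hg1, hg2⟩ : ∃ g0 : ℕ, G * S.card ≤ g0 * k ^ 2 ∧ g0 * k ^ 2 < G * S.card + k ^ 2 := by
    refine ⟨(G * S.card + (k ^ 2 - 1)) / k ^ 2, ?_, ?_⟩
    · have h1 := Nat.div_add_mod (G * S.card + (k ^ 2 - 1)) (k ^ 2)
      have h2 := Nat.mod_lt (G * S.card + (k ^ 2 - 1)) hk2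
      rw [mul_comm] at h1
      omega
    · have h1 := Nat.div_mul_le_self (G * S.card + (k ^ 2 - 1)) (k ^ 2)
      omega
  have hg3 : (g0 + 1) * k ^ 2 ≤ G * T.card := by
    rw [add_mul, one_mul]
    omega
  have hg4 : g0 < G := by
    have h1 : (g0 + 1) * k ^ 2 ≤ G * k ^ 2 := hg3.trans (Nat.mul_le_mul_left G hTle)
    have := Nat.le_of_mul_le_mul_right h1 hk2
    omega
  obtain ⟨x, hx⟩ := huv ⟨g0, hg4⟩ S T hST hg1 hg3
  refine ⟨x, ?_⟩
  rw [mem_inter, mem_union] at hx ⊢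
  refine ⟨?_, hx.2⟩
  rcases hx.1 with h | h
  · exact Or.inl (mem_biUnion.mpr ⟨⟨g0, hg4⟩, mem_univ _, h⟩)
  · exact Or.inr (mem_biUnion.mpr ⟨⟨g0, hg4⟩, mem_univ _, h⟩)

end Pool.H10.Sym4
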