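import Pool.Agent.H10.Sym4.Box

set_option autoImplicit false

namespace Pool.H10.Sym4

open Finset

theorem exists_n0 (b s : ℕ) (hb : 2 ≤ b) :
    ∃ n0 : ℕ, 1 ≤ n0 ∧ (4 * (n0 * b ^ 2 + 1)) ^ s ≤ b ^ n0 := by
  have hbr : (1 : ℝ) < b := by
    have : 1 < b := by omega
    exact_mod_cast this
  have h := tendsto_pow_const_div_const_pow_of_one_lt s hbr
  have hpos : (0 : ℝ) < 1 / (8 * (b : ℝ) ^ 2) ^ s := by positivity
  have h2 := (h.eventually (gt_mem_nhds hpos)).and (Filter.eventually_ge_atTop 1)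
  obtain ⟨n0, hn0, hn1⟩ := h2.exists
  refine ⟨n0, hn1, ?_⟩
  have h3 : (4 * (n0 * b ^ 2 + 1)) ^ s ≤ (8 * b ^ 2 * n0) ^ s := by
    apply Nat.pow_le_pow_left
    have : 1 ≤ n0 * b ^ 2 := Nat.mul_pos hn1 (by positivity)
    nlinarith
  refine h3.trans ?_
  have h4 : ((8 * b ^ 2 * n0 : ℕ) : ℝ) ^ s ≤ (b : ℝ) ^ n0 := by
    have hb0 : (0 : ℝ) < (b : ℝ) ^ n0 := by positivity
    rw [div_lt_div_iff₀ hb0 (by positivity)] at hn0
    push_cast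
    rw [mul_pow, mul_comm]
    linarith
  exact_mod_cast h4

theorem exists_good (s : ℕ) (hs : 1 ≤ s) :
    ∃ B κ : ℕ, 2 ≤ B ∧ κ ^ s ≤ B ^ 4 ∧ ∀ m : ℕ, ∃ c : ℕ → Fin (κ ^ m),
      ∀ x d : ℕ, 0 < d → x + 3 * d < B ^ m →
        ¬ (c x = c (x + 3 * d) ∧ c (x + d) = c (x + 2 * d)) := by
  have hb8 : 8 ≤ 8 ^ s := by
    calc 8 = 8 ^ 1 := by norm_num
      _ ≤ 8 ^ s := Nat.pow_le_pow_right (by norm_num) hs
  obtain ⟨b, hb⟩ : ∃ b : ℕ, b = 8 ^ s := ⟨_, rfl⟩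
  have hb2 : 8 ≤ b := by omega
  obtain ⟨n0, hn0, hn0s⟩ := exists_n0 b s (by omega)
  obtain ⟨t, ht⟩ : ∃ t : ℕ, t = 32 * (n0 * b ^ 2) ^ 2 * s ^ 3 := ⟨_, rfl⟩
  have hbox := noSym_box b n0 s t (by omega) hn0 hs (by omega)
  obtain ⟨H, hH⟩ : ∃ H : ℕ, H = n0 * b ^ 2 := ⟨_, rfl⟩
  rw [← hH] at hbox hn0s ht
  have hH1 : 1 ≤ H := by
    rw [hH]
    exact Nat.mul_pos hn0 (by positivity)
  have ht1 : 1 ≤ t := by
    rw [ht]
    exact Nat.succ_le_of_lt (by positivity)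
  obtain ⟨J, hJ⟩ : ∃ J : ℕ, J = H * t ^ 2 := ⟨_, rfl⟩
  rw [← hJ] at hbox
  have hJ1 : 1 ≤ J := by
    rw [hJ]
    exact Nat.succ_le_of_lt (by positivity)
  obtain ⟨r, hr⟩ : ∃ r : ℕ, r = J / s := ⟨_, rfl⟩
  rw [← hr] at hbox
  obtain ⟨K, hK⟩ : ∃ K : ℕ, K = (H + 1) ^ J * ((2 ^ J * (b ^ n0) ^ r + 1) * (b ^ n0) ^ r) :=
    ⟨_, rfl⟩
  rw [← hK] at hbox
  refine ⟨b ^ (J * n0), K * 8 ^ (J * n0), ?_, ?_, ?_⟩
  · have h1 : b ≤ b ^ (J * n0) := Nat.le_self_pow (by positivity) b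
    omega
  · have hXr : 1 ≤ (b ^ n0) ^ r := Nat.pos_of_ne_zero (by positivity)
    have h1 : 2 ^ J * (b ^ n0) ^ r + 1 ≤ 4 ^ J * (b ^ n0) ^ r := by
      have h2 : 2 ^ J + 1 ≤ 4 ^ J := by
        have h3 : (4 : ℕ) ^ J = 2 ^ J * 2 ^ J := by
          rw [show (4 : ℕ) = 2 * 2 by norm_num, mul_pow]
        have h4 : 2 ≤ 2 ^ J := by
          calc 2 = 2 ^ 1 := by norm_num
            _ ≤ 2 ^ J := Nat.pow_le_pow_right (by norm_num) hJ1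
        rw [h3]
        nlinarith
      nlinarith
    have h2 : K ≤ (4 * (H + 1)) ^ J * (b ^ n0) ^ (2 * r) := by
      calc K ≤ (H + 1) ^ J * ((4 ^ J * (b ^ n0) ^ r) * (b ^ n0) ^ r) := by
            rw [hK]
            exact Nat.mul_le_mul_left _ (Nat.mul_le_mul_right _ h1)
        _ = (4 * (H + 1)) ^ J * (b ^ n0) ^ (2 * r) := by
            rw [mul_pow 4 (H + 1) J, two_mul, pow_add]
            ring
    have h3 : r * s ≤ J := by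
      rw [hr]
      exact Nat.div_mul_le_self J s
    calc (K * 8 ^ (J * n0)) ^ s = K ^ s * (8 ^ s) ^ (J * n0) := by
          rw [mul_pow, ← pow_mul, ← pow_mul, mul_comm s]
      _ ≤ ((4 * (H + 1)) ^ J * (b ^ n0) ^ (2 * r)) ^ s * b ^ (J * n0) := by
          rw [← hb]
          exact Nat.mul_le_mul_right _ (Nat.pow_le_pow_left h2 s)
      _ = ((4 * (H + 1)) ^ s) ^ J * (b ^ n0) ^ (2 * (r * s)) * b ^ (J * n0) := by
          rw [mul_pow, ← pow_mul, ← pow_mul, ← pow_mul, mul_comm J s]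
          ring_nf
      _ ≤ (b ^ n0) ^ J * (b ^ n0) ^ (2 * J) * b ^ (J * n0) := by
          apply Nat.mul_le_mul_right
          apply Nat.mul_le_mul
          · exact Nat.pow_le_pow_left hn0s J
          · apply Nat.pow_le_pow_right (by positivity)
            omega
      _ = (b ^ (J * n0)) ^ 4 := by
          rw [← pow_mul, ← pow_mul, ← pow_mul, ← pow_add, ← pow_add]
          congr 1
          ring
  · intro m
    have h1 := (hbox.prod m).congr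
      ((Equiv.prodCongr (Equiv.refl _) finProdFinEquiv).trans finProdFinEquiv)
    obtain ⟨c, hc⟩ := transfer b (m * (J * n0)) (K ^ m) (by omega) h1
    have e1 : (K * 8 ^ (J * n0)) ^ m = K ^ m * 8 ^ (m * (J * n0)) := by
      rw [mul_pow, ← pow_mul, mul_comm (J * n0) m]
    have e2 : (b ^ (J * n0)) ^ m = b ^ (m * (J * n0)) := by
      rw [← pow_mul, mul_comm (J * n0) m]
    rw [e1, e2]
    exact ⟨c, hc⟩

theorem main : ∀ ε : ℝ, 0 < ε → ∃ N₀ : ℕ, ∀ N : ℕ, N₀ ≤ N →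
    ∃ k : ℕ, (k : ℝ) ≤ (N : ℝ) ^ ε ∧
      ∃ c : ℕ → Fin k, ∀ x d : ℕ, 0 < d → 1 ≤ x → x + 3 * d ≤ N →
        ¬ (c x = c (x + 3 * d) ∧ c (x + d) = c (x + 2 * d)) := by
  intro ε hε
  obtain ⟨s, hs⟩ := exists_nat_ge (8 / ε)
  have hs0 : 0 < s := by
    have : (0 : ℝ) < s := lt_of_lt_of_le (by positivity) hs
    exact_mod_cast this
  have hs8 : 8 ≤ ε * s := by
    rw [div_le_iff₀ hε] at hs
    linarith
  obtain ⟨B, κ, hB, hκ, hcol⟩ := exists_good s hs0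
  refine ⟨B, fun N hN => ?_⟩
  have hN1 : 1 ≤ N := by omega
  obtain ⟨m, hm⟩ : ∃ m : ℕ, m = Nat.log B N + 1 := ⟨_, rfl⟩
  have hlt : N < B ^ m := by
    rw [hm]
    exact Nat.lt_pow_succ_log_self (by omega) N
  have hle : B ^ m ≤ B * N := by
    rw [hm, pow_succ, mul_comm]
    exact Nat.mul_le_mul_left B (Nat.pow_log_le_self B (by omega))
  obtain ⟨c, hc⟩ := hcol m
  refine ⟨κ ^ m, ?_, c, fun x d hd _ hx => hc x d hd (by omega)⟩
  have h1 : (κ ^ m) ^ s ≤ N ^ 8 := by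
    calc (κ ^ m) ^ s = (κ ^ s) ^ m := by rw [← pow_mul, ← pow_mul, mul_comm]
      _ ≤ (B ^ 4) ^ m := Nat.pow_le_pow_left hκ m
      _ = (B ^ m) ^ 4 := by rw [← pow_mul, ← pow_mul, mul_comm]
      _ ≤ (B * N) ^ 4 := Nat.pow_le_pow_left hle 4
      _ ≤ (N * N) ^ 4 := Nat.pow_le_pow_left (Nat.mul_le_mul_right N hN) 4
      _ = N ^ 8 := by ring
  have hNr : (1 : ℝ) ≤ N := by exact_mod_cast hN1
  have h2 : ((κ ^ m : ℕ) : ℝ) ^ s ≤ ((N : ℝ) ^ ε) ^ s := by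
    calc ((κ ^ m : ℕ) : ℝ) ^ s ≤ (N : ℝ) ^ 8 := by exact_mod_cast h1
      _ = (N : ℝ) ^ (8 : ℝ) := by
          rw [← Real.rpow_natCast]
          norm_num
      _ ≤ (N : ℝ) ^ (ε * s) := Real.rpow_le_rpow_of_exponent_le hNr hs8
      _ = ((N : ℝ) ^ ε) ^ s := by
          rw [Real.rpow_mul (by linarith), Real.rpow_natCast]
  exact le_of_pow_le_pow_left₀ hs0.ne' (by positivity) h2

end Pool.H10.Sym4
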