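import Pool.Agent.H10.Sym4.Lists

set_option autoImplicit false

namespace Pool.H10.Sym4

open Finset

/-- Greedy colouring. -/
theorem greedy {V : Type} [Fintype V] [DecidableEq V] (adj : V → V → Prop)
    (hsym : ∀ v w, adj v w → adj w v) (n : ℕ) (hn : 0 < n)
    (hdeg : ∀ v, ∀ s : Finset V, (∀ w ∈ s, adj v w) → s.card < n) :
    ∃ c : V → Fin n, ∀ v w, v ≠ w → adj v w → c v ≠ c w := by
  classical
  have key : ∀ s : Finset V, ∃ c : V → Fin n, ∀ v ∈ s, ∀ w ∈ s, v ≠ w → adj v w → c v ≠ c w := by
    intro s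
    induction s using Finset.induction_on with
    | empty => exact ⟨fun _ => ⟨0, hn⟩, by simp⟩
    | insert a s ha ih =>
      obtain ⟨c, hc⟩ := ih
      have h1 : ((s.filter (fun w => adj a w)).image c).card < (univ : Finset (Fin n)).card := by
        rw [card_univ, Fintype.card_fin]
        exact card_image_le.trans_lt (hdeg a _ (fun w hw => (mem_filter.mp hw).2))
      obtain ⟨col, hcol⟩ : ∃ col : Fin n, col ∉ (s.filter (fun w => adj a w)).image c := by
        by_contra hall
        push Not at hall
        have : (univ : Finset (Fin n)) ⊆ (s.filter (fun w => adj a w)).image c :=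
          fun x _ => hall x
        exact absurd (card_le_card this) (not_le.mpr h1)
      refine ⟨Function.update c a col, ?_⟩
      intro v hv w hw hvw hadj
      rw [mem_insert] at hv hw
      by_cases hva : v = a
      · subst hva
        have hwv : w ≠ v := fun h => hvw h.symm
        have hws : w ∈ s := by
          rcases hw with h | h
          · exact absurd h hwv
          · exact h
        rw [Function.update_self, Function.update_of_ne hwv]
        intro heq
        exact hcol (mem_image.mpr ⟨w, mem_filter.mpr ⟨hws, hadj⟩, heq.symm⟩)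
      · have hvs : v ∈ s := by
          rcases hv with h | h
          · exact absurd h hva
          · exact h
        rw [Function.update_of_ne hva]
        by_cases hwa : w = a
        · subst hwa
          rw [Function.update_self]
          intro heq
          exact hcol (mem_image.mpr ⟨v, mem_filter.mpr ⟨hvs, hsym _ _ hadj⟩, heq⟩)
        · have hws : w ∈ s := by
            rcases hw with h | h
            · exact absurd h hwa
            · exact h
          rw [Function.update_of_ne hwa]
          exact hc v hvs w hws hvw hadj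
  obtain ⟨c, hc⟩ := key univ
  exact ⟨c, fun v w => hc v (mem_univ _) w (mem_univ _)⟩

/-- A colouring in which distinct words of equal colour differ in more than `r` places. -/
theorem exists_code {X : Type} [Fintype X] [DecidableEq X] [Nonempty X] (J r : ℕ) :
    ∃ h : (Fin J → X) → Fin (2 ^ J * (Fintype.card X) ^ r + 1), ∀ P Q : Fin J → X,
      h P = h Q → P ≠ Q → r < (univ.filter (fun j => P j ≠ Q j)).card := by
  classical
  have hX : 0 < Fintype.card X := Fintype.card_pos
  obtain ⟨c, hc⟩ := greedy (V := Fin J → X)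
    (fun P Q => (univ.filter (fun j => P j ≠ Q j)).card ≤ r)
    (by
      intro P Q h
      have : (univ.filter (fun j => Q j ≠ P j)) = (univ.filter (fun j => P j ≠ Q j)) := by
        ext j
        simp [eq_comm]
      rw [this]
      exact h)
    (2 ^ J * (Fintype.card X) ^ r + 1) (Nat.succ_pos _)
    (by
      intro P s hs
      apply Nat.lt_succ_of_le
      have hsub : s ⊆ ((univ : Finset (Finset (Fin J))).filter (fun K => K.card ≤ r)).biUnion
          (fun K => Fintype.piFinset (fun j => if j ∈ K then (univ : Finset X) else {P j})) := by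
        intro Q hQ
        refine mem_biUnion.mpr ⟨univ.filter (fun j => P j ≠ Q j), ?_, ?_⟩
        · simp only [mem_filter, mem_univ, true_and]
          exact hs Q hQ
        · rw [Fintype.mem_piFinset]
          intro j
          by_cases hj : P j = Q j
          · simp [hj]
          · simp [hj]
      refine (card_le_card hsub).trans (card_biUnion_le.trans ?_)
      have hterm : ∀ K ∈ (univ : Finset (Finset (Fin J))).filter (fun K => K.card ≤ r),
          (Fintype.piFinset (fun j => if j ∈ K then (univ : Finset X) else {P j})).card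
            ≤ (Fintype.card X) ^ r := by
        intro K hK
        rw [mem_filter] at hK
        rw [Fintype.card_piFinset]
        have h1 : ∀ j : Fin J, (if j ∈ K then (univ : Finset X) else {P j}).card
            = if j ∈ K then Fintype.card X else 1 := by
          intro j
          by_cases hj : j ∈ K
          · simp [hj]
          · simp [hj]
        rw [Finset.prod_congr rfl (fun j _ => h1 j), Finset.prod_ite_mem, univ_inter, prod_const]
        exact Nat.pow_le_pow_right hX hK.2
      refine (sum_le_sum hterm).trans ?_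
      rw [sum_const, smul_eq_mul]
      apply Nat.mul_le_mul_right
      refine (card_filter_le _ _).trans ?_
      rw [card_univ, Fintype.card_finset, Fintype.card_fin])
  refine ⟨c, fun P Q hPQ hne => ?_⟩
  by_contra hle
  exact hc P Q hne (not_lt.mp hle) hPQ

/-- Revealing the entries of a word in a short list of places. -/
theorem exists_reveal {X : Type} [Fintype X] [DecidableEq X] [Nonempty X] (J r : ℕ) :
    ∃ e : Finset (Fin J) → (Fin J → X) → Fin ((Fintype.card X) ^ r), ∀ Lam : Finset (Fin J),
      Lam.card ≤ r → ∀ P Q : Fin J → X, e Lam P = e Lam Q → ∀ j ∈ Lam, P j = Q j := by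
  classical
  have hX : 0 < Fintype.card X := Fintype.card_pos
  have h : ∀ Lam : Finset (Fin J), ∃ e : (Fin J → X) → Fin ((Fintype.card X) ^ r),
      Lam.card ≤ r → ∀ P Q : Fin J → X, e P = e Q → ∀ j ∈ Lam, P j = Q j := by
    intro Lam
    by_cases hL : Lam.card ≤ r
    · have hcard : Fintype.card (Lam → X) ≤ Fintype.card (Fin ((Fintype.card X) ^ r)) := by
        rw [Fintype.card_fun, Fintype.card_coe, Fintype.card_fin]
        exact Nat.pow_le_pow_right hX hL
      obtain ⟨f⟩ := Function.Embedding.nonempty_of_card_le hcard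
      refine ⟨fun P => f (fun j => P j), fun _ P Q hPQ j hj => ?_⟩
      exact congrFun (f.injective hPQ) ⟨j, hj⟩
    · exact ⟨fun _ => ⟨0, Nat.pow_pos hX⟩, fun h => absurd h hL⟩
  choose e he using h
  exact ⟨e, he⟩

/-- The colouring of a power of a levelled set. -/
theorem power {X : Type} [Fintype X] [DecidableEq X] [Nonempty X]
    (Q : X → X → X → X → Prop) (lv : X → ℕ) (H s t : ℕ) (hlv : ∀ x, lv x ≤ H)
    (hQ : ∀ p0 p1 p2 p3, Q p0 p1 p2 p3 → lv p0 = lv p3 → lv p1 = lv p2 →
      lv p1 ≤ lv p0 ∧ (p1 ≠ p2 → lv p1 < lv p0) ∧ (lv p1 < lv p0 → p1 ≠ p2 ∧ p0 ≠ p3))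
    (hH : 1 ≤ H) (hs : 1 ≤ s) (ht : 32 * H ^ 2 * s ^ 3 ≤ t) :
    ∃ c : (Fin (H * t ^ 2) → X) → Fin ((H + 1) ^ (H * t ^ 2)
        * ((2 ^ (H * t ^ 2) * (Fintype.card X) ^ (H * t ^ 2 / s) + 1)
          * (Fintype.card X) ^ (H * t ^ 2 / s))),
      ∀ P0 P1 P2 P3 : Fin (H * t ^ 2) → X, (∀ j, Q (P0 j) (P1 j) (P2 j) (P3 j)) →
        c P0 = c P3 → c P1 = c P2 → P1 = P2 := by
  classical
  set J : ℕ := H * t ^ 2 with hJ
  set r : ℕ := J / s with hr
  have ht4 : 4 ≤ t := by
    have : 1 ≤ H ^ 2 * s ^ 3 := Nat.mul_pos (by positivity) (by positivity)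
    nlinarith
  have hk4 : 4 ≤ H * t := by nlinarith
  have hcardA : Fintype.card (Fin J × Fin H) = (H * t) ^ 2 := by
    rw [Fintype.card_prod, Fintype.card_fin, Fintype.card_fin, hJ]
    ring
  obtain ⟨u, v, hu, hv, huv⟩ := lists (A := Fin J × Fin H) (H * t) (2 * H * s) hk4 hcardA
  obtain ⟨h, hh⟩ := exists_code (X := X) J r
  obtain ⟨e, he⟩ := exists_reveal (X := X) J r
  let lev : (Fin J → X) → (Fin J → Fin (H + 1)) := fun P j => ⟨lv (P j), Nat.lt_succ_of_le (hlv _)⟩
  let St : (Fin J → Fin (H + 1)) → Finset (Fin J × Fin H) := fun L =>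
    univ.filter (fun p => p.2.val < (L p.1).val)
  let Lam : (Fin J → Fin (H + 1)) → Finset (Fin J) := fun L =>
    (u (St L) ∪ v (St L)).image Prod.fst
  have hLam : ∀ L, (Lam L).card ≤ r := by
    intro L
    have h1 : (Lam L).card ≤ 4 * (2 * H * s) ^ 2 * (H * t) + 4 * (2 * H * s) ^ 2 * (H * t) :=
      card_image_le.trans ((card_union_le _ _).trans (add_le_add (hu _) (hv _)))
    refine h1.trans ?_
    rw [hr, Nat.le_div_iff_mul_le (by omega), hJ]
    calc (4 * (2 * H * s) ^ 2 * (H * t) + 4 * (2 * H * s) ^ 2 * (H * t)) * s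
        = (32 * H ^ 2 * s ^ 3) * (H * t) := by ring
      _ ≤ t * (H * t) := Nat.mul_le_mul_right _ ht
      _ = H * t ^ 2 := by ring
  let Col : Type := (Fin J → Fin (H + 1)) ×
    (Fin (2 ^ J * (Fintype.card X) ^ r + 1) × Fin ((Fintype.card X) ^ r))
  have hcardCol : Fintype.card Col = (H + 1) ^ J
      * ((2 ^ J * (Fintype.card X) ^ r + 1) * (Fintype.card X) ^ r) := by
    simp only [Col, Fintype.card_prod, Fintype.card_fun, Fintype.card_fin]
  let E : Col ≃ Fin ((H + 1) ^ J * ((2 ^ J * (Fintype.card X) ^ r + 1) * (Fintype.card X) ^ r)) :=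
    Fintype.equivFinOfCardEq hcardCol
  let c0 : (Fin J → X) → Col := fun P => (lev P, h P, e (Lam (lev P)) P)
  refine ⟨fun P => E (c0 P), ?_⟩
  intro P0 P1 P2 P3 hAP hout hin
  have hout := E.injective hout
  have hin := E.injective hin
  have hout1 : lev P0 = lev P3 := congrArg (fun z : Col => z.1) hout
  have hout3 : e (Lam (lev P0)) P0 = e (Lam (lev P3)) P3 := congrArg (fun z : Col => z.2.2) hout
  have hin1 : lev P1 = lev P2 := congrArg (fun z : Col => z.1) hin
  have hin2 : h P1 = h P2 := congrArg (fun z : Col => z.2.1) hin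
  have hin3 : e (Lam (lev P1)) P1 = e (Lam (lev P2)) P2 := congrArg (fun z : Col => z.2.2) hin
  have hl0 : ∀ j, lv (P0 j) = lv (P3 j) := fun j => congrArg Fin.val (congrFun hout1 j)
  have hl1 : ∀ j, lv (P1 j) = lv (P2 j) := fun j => congrArg Fin.val (congrFun hin1 j)
  have hq := fun j => hQ _ _ _ _ (hAP j) (hl0 j) (hl1 j)
  by_contra hne
  have hN := hh P1 P2 hin2 hne
  -- the two sets of cells
  have hsub : St (lev P1) ⊆ St (lev P0) := by
    intro p hp
    simp only [St, lev, mem_filter, mem_univ, true_and] at hp ⊢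
    exact lt_of_lt_of_le hp (hq p.1).1
  have hbig : (univ.filter (fun j => P1 j ≠ P2 j)).card ≤ (St (lev P0) \ St (lev P1)).card := by
    apply card_le_card_of_injOn
      (fun j => (j, (⟨min (lv (P1 j)) (H - 1), by omega⟩ : Fin H)))
    · intro j hj
      have hj' : P1 j ≠ P2 j := by simpa using hj
      have h1 := (hq j).2.1 hj'
      have h2 := hlv (P0 j)
      have h3 : min (lv (P1 j)) (H - 1) = lv (P1 j) := by omega
      simp only [St, lev, coe_sdiff, Set.mem_sdiff, mem_coe, mem_filter, mem_univ, true_and, h3]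
      exact ⟨h1, lt_irrefl _⟩
    · intro j _ j' _ hjj
      exact (Prod.mk.inj hjj).1
  have hsize : 2 * (H * t) ^ 2 ≤ (2 * H * s) * (St (lev P0) \ St (lev P1)).card := by
    have h1 : J < s * (r + 1) := by
      rw [hr]
      exact Nat.lt_mul_div_succ J (by omega)
    have h2 : r + 1 ≤ (St (lev P0) \ St (lev P1)).card := by omega
    calc 2 * (H * t) ^ 2 = 2 * H * J := by rw [hJ]; ring
      _ ≤ 2 * H * (s * (r + 1)) := Nat.mul_le_mul_left _ h1.le
      _ = 2 * H * s * (r + 1) := by ring
      _ ≤ _ := Nat.mul_le_mul_left _ h2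
  obtain ⟨x, hx⟩ := huv _ _ hsub hsize
  rw [mem_inter, mem_union, mem_sdiff] at hx
  obtain ⟨hx1, hx2, hx3⟩ := hx
  simp only [St, lev, mem_filter, mem_univ, true_and, not_lt] at hx2 hx3
  have hlt : lv (P1 x.1) < lv (P0 x.1) := lt_of_le_of_lt hx3 hx2
  obtain ⟨hn1, hn2⟩ := (hq x.1).2.2 hlt
  rcases hx1 with hx1 | hx1
  · apply hn1
    have hmem : x.1 ∈ Lam (lev P1) := mem_image_of_mem _ (mem_union_left _ hx1)
    rw [← hin1] at hin3
    exact he _ (hLam _) P1 P2 hin3 x.1 hmem
  · apply hn2
    have hmem : x.1 ∈ Lam (lev P0) := mem_image_of_mem _ (mem_union_right _ hx1)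
    rw [← hout1] at hout3
    exact he _ (hLam _) P0 P3 hout3 x.1 hmem

end Pool.H10.Sym4
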