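import Mathlib

set_option autoImplicit false

namespace Pool.H10.Sym4

section Norm

variable {q : ℕ} [Fact q.Prime]

/-- the norm of the Galois field of order q^3, written with the Frobenius map -/
def nm (q : ℕ) [Fact q.Prime] {K : Type*} [Field K] [CharP K q] (y : K) : K :=
  y * frobenius K q y * frobenius K q (frobenius K q y)

theorem nm_eq_zero {K : Type*} [Field K] [CharP K q] {y : K} (h : nm q y = 0) : y = 0 := by
  unfold nm at h
  simpa using h

theorem nm_diff {K : Type*} [Field K] [CharP K q] (m d : K) :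
    (nm q (m + 3 * d) - nm q (m - 3 * d)) - 3 * (nm q (m + d) - nm q (m - d)) = 48 * nm q d := by
  unfold nm
  simp only [map_add, map_sub, map_mul, map_ofNat]
  ring

theorem norm_eq_nm (y : GaloisField q 3) :
    algebraMap (ZMod q) (GaloisField q 3) (Algebra.norm (ZMod q) y) = nm q y := by
  rw [FiniteField.algebraMap_norm_eq_prod_pow, GaloisField.finrank q (by norm_num)]
  simp only [Nat.card_eq_fintype_card, ZMod.card, Finset.prod_range_succ, Finset.prod_range_zero,
    pow_zero, pow_one, one_mul, nm, frobenius_def]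
  ring

end Norm

/-- the colouring of the four-dimensional space over the prime field of order q -/
theorem exists_field_colouring (q : ℕ) [Fact q.Prime] (hq : 5 ≤ q) :
    ∃ f : (Fin 3 → ZMod q) × ZMod q → ZMod q, ∀ x0 x1 x2 x3 : (Fin 3 → ZMod q) × ZMod q,
      x0 + x3 = x1 + x2 → x3 - x0 = (3 : ZMod q) • (x2 - x1) → f x0 = f x3 → f x1 = f x2 →
        x1 = x2 := by
  have hfr : Module.finrank (ZMod q) (GaloisField q 3) = 3 := GaloisField.finrank q (by norm_num)
  have b : Module.Basis (Fin 3) (ZMod q) (GaloisField q 3) := Module.finBasisOfFinrankEq _ _ hfr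
  let L : (Fin 3 → ZMod q) ≃ₗ[ZMod q] GaloisField q 3 := b.equivFun.symm
  refine ⟨fun x => Algebra.norm (ZMod q) (L x.1) + x.2, ?_⟩
  rintro ⟨a0, b0⟩ ⟨a1, b1⟩ ⟨a2, b2⟩ ⟨a3, b3⟩ h1 h2 h3 h4
  simp only [Prod.mk_add_mk, Prod.mk_sub_mk, Prod.smul_mk, Prod.mk.injEq] at h1 h2
  obtain ⟨h1a, h1b⟩ := h1
  obtain ⟨h2a, h2b⟩ := h2
  have hp := (Fact.out : q.Prime)
  have h2ne : (2 : GaloisField q 3) ≠ 0 := by
    intro h
    have : ((2 : ℕ) : GaloisField q 3) = 0 := by exact_mod_cast h
    rw [CharP.cast_eq_zero_iff (GaloisField q 3) q] at this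
    have := Nat.le_of_dvd (by norm_num) this
    omega
  have h3ne : (3 : GaloisField q 3) ≠ 0 := by
    intro h
    have : ((3 : ℕ) : GaloisField q 3) = 0 := by exact_mod_cast h
    rw [CharP.cast_eq_zero_iff (GaloisField q 3) q] at this
    have := Nat.le_of_dvd (by norm_num) this
    omega
  have h48 : (48 : GaloisField q 3) ≠ 0 := by
    have : (48 : GaloisField q 3) = 2 * 2 * 2 * 2 * 3 := by norm_num
    rw [this]
    simp [h2ne, h3ne]
  have h2ne' : (2 : ZMod q) ≠ 0 := by
    intro h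
    apply h2ne
    have := congrArg (algebraMap (ZMod q) (GaloisField q 3)) h
    rwa [map_ofNat, map_zero] at this
  -- pass to the field extension
  have e3 : nm q (L a0) + algebraMap (ZMod q) (GaloisField q 3) b0
      = nm q (L a3) + algebraMap (ZMod q) (GaloisField q 3) b3 := by
    rw [← norm_eq_nm, ← norm_eq_nm, ← map_add, ← map_add]
    exact congrArg _ h3
  have e4 : nm q (L a1) + algebraMap (ZMod q) (GaloisField q 3) b1
      = nm q (L a2) + algebraMap (ZMod q) (GaloisField q 3) b2 := by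
    rw [← norm_eq_nm, ← norm_eq_nm, ← map_add, ← map_add]
    exact congrArg _ h4
  have l1 : L a0 + L a3 = L a1 + L a2 := by rw [← map_add, ← map_add, h1a]
  have l2 : L a3 - L a0 = 3 * (L a2 - L a1) := by
    have := congrArg L h2a
    rw [map_sub, map_smul, map_sub] at this
    rw [this, Algebra.smul_def, map_ofNat]
  have k2 : algebraMap (ZMod q) (GaloisField q 3) b3 - algebraMap (ZMod q) (GaloisField q 3) b0
      = 3 * (algebraMap (ZMod q) (GaloisField q 3) b2
        - algebraMap (ZMod q) (GaloisField q 3) b1) := by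
    have := congrArg (algebraMap (ZMod q) (GaloisField q 3)) h2b
    rw [map_sub, smul_eq_mul, map_mul, map_sub] at this
    rw [this, map_ofNat]
  obtain ⟨m, d, hm1, hm2⟩ : ∃ m d : GaloisField q 3, L a1 = m - d ∧ L a2 = m + d := by
    refine ⟨(L a1 + L a2) / 2, (L a2 - L a1) / 2, ?_, ?_⟩ <;> field_simp <;> ring
  have hm3 : L a3 = m + 3 * d := by
    have : 2 * L a3 = 2 * (m + 3 * d) := by
      have := congrArg₂ (· + ·) l1 l2
      simp only [hm1, hm2] at this
      linear_combination this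
    exact mul_left_cancel₀ h2ne this
  have hm0 : L a0 = m - 3 * d := by
    rw [hm3, hm1, hm2] at l1
    linear_combination l1
  rw [hm0, hm3] at e3
  rw [hm1, hm2] at e4
  have key := nm_diff (q := q) m d
  have hnm : nm q d = 0 := by
    have : (48 : GaloisField q 3) * nm q d = 0 := by
      rw [← key]
      linear_combination (-1 : GaloisField q 3) * e3 + 3 * e4 - k2
    exact (mul_eq_zero.mp this).resolve_left h48
  have hd : d = 0 := nm_eq_zero hnm
  have ha : a1 = a2 := by
    apply L.injective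
    rw [hm1, hm2, hd]
    ring
  have hb : b1 = b2 := by
    apply (algebraMap (ZMod q) (GaloisField q 3)).injective
    rw [hd, sub_zero, add_zero] at e4
    linear_combination e4
  rw [ha, hb]

theorem digit_zero {q e0 e1 e2 e3 : ℤ} (h0 : |e0| < q) (h1 : |e1| < q) (h2 : |e2| < q)
    (h3 : |e3| < q) (h : e0 + q * (e1 + q * (e2 + q * e3)) = 0) :
    e0 = 0 ∧ e1 = 0 ∧ e2 = 0 ∧ e3 = 0 := by
  have hq : 0 < q := lt_of_le_of_lt (abs_nonneg _) h0
  have z : ∀ a r : ℤ, |a| < q → a + q * r = 0 → a = 0 ∧ r = 0 := by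
    intro a r ha har
    have hdvd : q ∣ a := ⟨-r, by linear_combination har⟩
    have ha0 : a = 0 := Int.eq_zero_of_abs_lt_dvd hdvd ha
    refine ⟨ha0, ?_⟩
    rw [ha0, zero_add] at har
    exact (mul_eq_zero.mp har).resolve_left hq.ne'
  obtain ⟨z0, r0⟩ := z _ _ h0 h
  obtain ⟨z1, r1⟩ := z _ _ h1 r0
  obtain ⟨z2, r2⟩ := z _ _ h2 r1
  exact ⟨z0, z1, z2, r2⟩

/-- the four digits of a natural number in base q, least significant first -/
def dig (q x : ℕ) : Fin 4 → ℕ := ![x % q, x / q % q, x / q / q % q, x / q / q / q % q]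

theorem dig_lt {q : ℕ} (hq : 0 < q) (x : ℕ) (i : Fin 4) : dig q x i < q := by
  fin_cases i <;> exact Nat.mod_lt _ hq

theorem dig_sum {q x : ℕ} (hx : x < q ^ 4) :
    (x : ℤ) = dig q x 0 + q * (dig q x 1 + q * (dig q x 2 + q * dig q x 3)) := by
  have h3 : x / q / q / q < q := by
    rw [Nat.div_div_eq_div_mul, Nat.div_div_eq_div_mul]
    apply Nat.div_lt_of_lt_mul
    calc x < q ^ 4 := hx
      _ = _ := by ring
  have e0 : q * (x / q) + x % q = x := Nat.div_add_mod x q
  have e1 : q * (x / q / q) + x / q % q = x / q := Nat.div_add_mod (x / q) q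
  have e2 : q * (x / q / q / q) + x / q / q % q = x / q / q := Nat.div_add_mod (x / q / q) q
  have e3 : x / q / q / q % q = x / q / q / q := Nat.mod_eq_of_lt h3
  have : x = dig q x 0 + q * (dig q x 1 + q * (dig q x 2 + q * dig q x 3)) := by
    simp only [dig, Matrix.cons_val_zero, Matrix.cons_val_one, Matrix.cons_val]
    rw [e3]
    calc x = q * (x / q) + x % q := e0.symm
      _ = q * (q * (x / q / q) + x / q % q) + x % q := by rw [e1]
      _ = q * (q * (q * (x / q / q / q) + x / q / q % q) + x / q % q) + x % q := by rw [e2]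
      _ = _ := by ring
  exact_mod_cast this

/-- the reduction of the digit vector modulo q -/
def red (q x : ℕ) : (Fin 3 → ZMod q) × ZMod q :=
  (fun i => (dig q x i.castSucc : ZMod q), (dig q x 3 : ZMod q))

/-- colouring of the integers below the fourth power of a prime -/
theorem exists_colouring_prime (q : ℕ) [Fact q.Prime] (hq : 5 ≤ q) :
    ∃ c : ℕ → Fin (q * 4096), ∀ x d : ℕ, 0 < d → x + 3 * d < q ^ 4 →
      ¬ (c x = c (x + 3 * d) ∧ c (x + d) = c (x + 2 * d)) := by
  have hq0 : 0 < q := by omega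
  obtain ⟨f, hf⟩ := exists_field_colouring q hq
  let C : ℕ → ZMod q × (Fin 4 → Fin 2) × (Fin 4 → Fin 4) := fun x =>
    (f (red q x), fun i => ⟨dig q x i % 2, Nat.mod_lt _ (by norm_num)⟩,
      fun i => ⟨4 * dig q x i / q, by
        apply Nat.div_lt_of_lt_mul
        have := dig_lt hq0 x i
        rw [mul_comm q 4]
        omega⟩)
  have hcard : Fintype.card (ZMod q × (Fin 4 → Fin 2) × (Fin 4 → Fin 4)) = q * 4096 := by
    simp [ZMod.card]
  let E : ZMod q × (Fin 4 → Fin 2) × (Fin 4 → Fin 4) ≃ Fin (q * 4096) :=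
    (Fintype.equivFinOfCardEq hcard)
  refine ⟨fun x => E (C x), ?_⟩
  rintro x d hd hlt ⟨hout, hin⟩
  have hout := E.injective hout
  have hin := E.injective hin
  simp only [C, Prod.mk.injEq] at hout hin
  obtain ⟨o1, o2, o3⟩ := hout
  obtain ⟨i1, i2, i3⟩ := hin
  have par : ∀ a b : ℕ,
      ((fun i => (⟨dig q a i % 2, Nat.mod_lt _ (by norm_num)⟩ : Fin 2)) : Fin 4 → Fin 2)
        = (fun i => ⟨dig q b i % 2, Nat.mod_lt _ (by norm_num)⟩) →
      ∀ i, dig q a i % 2 = dig q b i % 2 := by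
    intro a b h i
    have := congrFun h i
    simpa using this
  have cell : ∀ a b : ℕ, ∀ i : Fin 4, 4 * dig q a i / q = 4 * dig q b i / q →
      4 * |(dig q a i : ℤ) - dig q b i| < q := by
    intro a b i h
    have a1 := Nat.div_add_mod (4 * dig q a i) q
    have a2 := Nat.mod_lt (4 * dig q a i) hq0
    have b1 := Nat.div_add_mod (4 * dig q b i) q
    have b2 := Nat.mod_lt (4 * dig q b i) hq0
    rw [h] at a1
    have a3 : (4 * dig q a i : ℤ) - 4 * dig q b i = (4 * dig q a i % q : ℕ) - (4 * dig q b i % q : ℕ) := by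
      have a1' : (q : ℤ) * (4 * dig q b i / q : ℕ) + (4 * dig q a i % q : ℕ) = 4 * dig q a i := by
        exact_mod_cast a1
      have b1' : (q : ℤ) * (4 * dig q b i / q : ℕ) + (4 * dig q b i % q : ℕ) = 4 * dig q b i := by
        exact_mod_cast b1
      linarith
    have : |(4 : ℤ) * ((dig q a i : ℤ) - dig q b i)| < q := by
      rw [mul_sub, a3, abs_lt]
      constructor <;> omega
    rwa [abs_mul] at this
  have po := par _ _ o2
  have pi := par _ _ i2
  have co : ∀ i, 4 * |(dig q x i : ℤ) - dig q (x + 3 * d) i| < q := by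
    intro i
    apply cell
    have := congrFun o3 i
    simpa using this
  have ci : ∀ i, 4 * |(dig q (x + d) i : ℤ) - dig q (x + 2 * d) i| < q := by
    intro i
    apply cell
    have := congrFun i3 i
    simpa using this
  set X0 := dig q x with hX0
  set X1 := dig q (x + d) with hX1
  set X2 := dig q (x + 2 * d) with hX2
  set X3 := dig q (x + 3 * d) with hX3
  have s0 := dig_sum (q := q) (x := x) (by omega)
  have s1 := dig_sum (q := q) (x := x + d) (by omega)
  have s2 := dig_sum (q := q) (x := x + 2 * d) (by omega)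
  have s3 := dig_sum (q := q) (x := x + 3 * d) (by omega)
  rw [← hX0] at s0
  rw [← hX1] at s1
  rw [← hX2] at s2
  rw [← hX3] at s3
  -- halves of the sums
  have half : ∀ i, ∃ e : ℤ, 2 * e = (X0 i : ℤ) + X3 i - X1 i - X2 i ∧ |e| < q := by
    intro i
    have p1 := po i
    have p2 := pi i
    have l0 : X0 i < q := dig_lt hq0 _ i
    have l1 : X1 i < q := dig_lt hq0 _ i
    have l2 : X2 i < q := dig_lt hq0 _ i
    have l3 : X3 i < q := dig_lt hq0 _ i
    refine ⟨((X0 i : ℤ) + X3 i - X1 i - X2 i) / 2, ?_, ?_⟩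
    · omega
    · rw [abs_lt]
      constructor <;> omega
  obtain ⟨e0, f0, g0⟩ := half 0
  obtain ⟨e1, f1, g1⟩ := half 1
  obtain ⟨e2, f2, g2⟩ := half 2
  obtain ⟨e3, f3, g3⟩ := half 3
  have hs : e0 + q * (e1 + q * (e2 + q * e3)) = 0 := by
    push_cast at s0 s1 s2 s3
    have : 2 * (e0 + q * (e1 + q * (e2 + q * e3))) = 0 := by
      linear_combination f0 + q * f1 + q * q * f2 + q * q * q * f3 - s0 - s3 + s1 + s2
    omega
  obtain ⟨z0, z1, z2, z3⟩ := digit_zero g0 g1 g2 g3 hs
  have sumeq : ∀ i, (X0 i : ℤ) + X3 i = X1 i + X2 i := by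
    intro i
    fin_cases i
    · simp only [Fin.zero_eta]; linarith
    · simp only [Fin.mk_one]; linarith
    · simp only [Fin.reduceFinMk]; linarith
    · simp only [Fin.reduceFinMk]; linarith
  -- the differences
  have bd : ∀ i, |(X3 i : ℤ) - X0 i - 3 * (X2 i - X1 i)| < q := by
    intro i
    have c1 := co i
    have c2 := ci i
    rw [abs_sub_comm] at c1 c2
    have t1 := abs_lt.mp (show |(X3 i : ℤ) - X0 i| < |(X3 i : ℤ) - X0 i| + 1 by omega)
    have t2 := abs_lt.mp (show |(X2 i : ℤ) - X1 i| < |(X2 i : ℤ) - X1 i| + 1 by omega)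
    rw [abs_lt]
    constructor <;> omega
  have hd' : ((X3 0 : ℤ) - X0 0 - 3 * (X2 0 - X1 0)) + q * (((X3 1 : ℤ) - X0 1 - 3 * (X2 1 - X1 1))
      + q * (((X3 2 : ℤ) - X0 2 - 3 * (X2 2 - X1 2)) + q * ((X3 3 : ℤ) - X0 3 - 3 * (X2 3 - X1 3))))
      = 0 := by
    push_cast at s0 s1 s2 s3
    linear_combination s0 - s3 + 3 * s2 - 3 * s1
  obtain ⟨w0, w1, w2, w3⟩ := digit_zero (bd 0) (bd 1) (bd 2) (bd 3) hd'
  have diffeq : ∀ i, (X3 i : ℤ) - X0 i = 3 * (X2 i - X1 i) := by
    intro i
    fin_cases i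
    · simp only [Fin.zero_eta]; linarith
    · simp only [Fin.mk_one]; linarith
    · simp only [Fin.reduceFinMk]; linarith
    · simp only [Fin.reduceFinMk]; linarith
  have sumq : ∀ i, (X0 i : ZMod q) + X3 i = X1 i + X2 i := by
    intro i
    have := congrArg (Int.cast : ℤ → ZMod q) (sumeq i)
    push_cast at this
    exact this
  have diffq : ∀ i, (X3 i : ZMod q) - X0 i = 3 * (X2 i - X1 i) := by
    intro i
    have := congrArg (Int.cast : ℤ → ZMod q) (diffeq i)
    push_cast at this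
    exact this
  have hres := hf (red q x) (red q (x + d)) (red q (x + 2 * d)) (red q (x + 3 * d)) ?_ ?_ o1 i1
  · -- equal residues of inner points give d = 0
    have hmod : ∀ i, (X1 i : ZMod q) = X2 i := by
      intro i
      fin_cases i
      · exact congrFun (congrArg Prod.fst hres) 0
      · exact congrFun (congrArg Prod.fst hres) 1
      · exact congrFun (congrArg Prod.fst hres) 2
      · exact congrArg Prod.snd hres
    have heq : ∀ i, X1 i = X2 i := by
      intro i
      have := (ZMod.natCast_eq_natCast_iff' _ _ _).mp (hmod i)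
      rwa [Nat.mod_eq_of_lt (dig_lt hq0 _ i), Nat.mod_eq_of_lt (dig_lt hq0 _ i)] at this
    have : ((x + d : ℕ) : ℤ) = ((x + 2 * d : ℕ) : ℤ) := by
      rw [s1, s2, heq 0, heq 1, heq 2, heq 3]
    omega
  · refine Prod.ext ?_ ?_
    · funext i
      exact sumq i.castSucc
    · exact sumq 3
  · refine Prod.ext ?_ ?_
    · funext i
      exact diffq i.castSucc
    · exact diffq 3

/-- for every N there is a colouring of the first N integers with at most 32768 * N^(1/4) colours
and no symmetrically coloured progression with four terms -/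
theorem quarter (N : ℕ) (hN : 1 ≤ N) :
    ∃ k : ℕ, (k : ℝ) ≤ 32768 * (N : ℝ) ^ (1 / 4 : ℝ) ∧
      ∃ c : ℕ → Fin k, ∀ x d : ℕ, 0 < d → 1 ≤ x → x + 3 * d ≤ N →
        ¬ (c x = c (x + 3 * d) ∧ c (x + d) = c (x + 2 * d)) := by
  obtain ⟨r, hr⟩ : ∃ r : ℕ, r = ⌊(N : ℝ) ^ (1 / 4 : ℝ)⌋₊ := ⟨_, rfl⟩
  have hpos : (1 : ℝ) ≤ (N : ℝ) ^ (1 / 4 : ℝ) :=
    Real.one_le_rpow (by exact_mod_cast hN) (by norm_num)
  have hr1 : 1 ≤ r := by
    rw [hr]
    exact (Nat.one_le_floor_iff _).mpr hpos
  have hrle : (r : ℝ) ≤ (N : ℝ) ^ (1 / 4 : ℝ) := by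
    rw [hr]
    exact Nat.floor_le (by positivity)
  have hrlt : (N : ℝ) ^ (1 / 4 : ℝ) < r + 1 := by
    rw [hr]
    exact Nat.lt_floor_add_one _
  obtain ⟨q, hqp, hq1, hq2⟩ := Nat.exists_prime_lt_and_le_two_mul (4 * r) (by omega)
  have : Fact q.Prime := ⟨hqp⟩
  obtain ⟨c, hc⟩ := exists_colouring_prime q (by omega)
  refine ⟨q * 4096, ?_, c, ?_⟩
  · have : (q : ℝ) ≤ 2 * (4 * r) := by exact_mod_cast hq2
    push_cast
    nlinarith
  · intro x d hd hx hle
    apply hc x d hd
    have h4 : (N : ℝ) < (r + 1 : ℝ) ^ 4 := by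
      have : ((N : ℝ) ^ (1 / 4 : ℝ)) ^ (4 : ℕ) < (r + 1 : ℝ) ^ (4 : ℕ) :=
        pow_lt_pow_left₀ hrlt (by positivity) (by norm_num)
      rwa [← Real.rpow_natCast, ← Real.rpow_mul (by positivity),
        show (1 / 4 : ℝ) * ((4 : ℕ) : ℝ) = 1 by norm_num, Real.rpow_one] at this
    have h5 : N < (r + 1) ^ 4 := by exact_mod_cast h4
    have h6 : (r + 1) ^ 4 ≤ q ^ 4 := Nat.pow_le_pow_left (by omega) 4
    omega

end Pool.H10.Sym4
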